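import Pool.Agent.H.MP_8741c9_al.C

set_option linter.unusedSectionVars false

namespace Pool.Agent.H.MP_8741c9_al

open IsLocalRing Matrix

/-- `a - b J` with `J` the lower shift. -/
def Ph {R : Type} [CommRing R] (r : ℕ) (a b : R) : Matrix (Fin r) (Fin r) R :=
  Matrix.of fun i j => if i = j then a else if (i : ℕ) = j + 1 then -b else 0

section
variable {R : Type} [CommRing R] {r : ℕ}

lemma Ph_map {R' : Type} [CommRing R'] (f : R →+* R') (a b : R) :
    (Ph r a b).map f = Ph r (f a) (f b) := by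
  ext i j
  simp only [Ph, map_apply, of_apply]
  split_ifs <;> simp

lemma Ph_zero (a : R) : Ph r a 0 = a • (1 : Matrix (Fin r) (Fin r) R) := by
  ext i j
  simp [Ph, one_apply]

lemma det_Ph (a b : R) : (Ph r a b).det = a ^ r := by
  rw [det_of_lowerTriangular]
  · simp [Ph]
  · intro i j h
    have h' : i < j := h
    have : (i : ℕ) ≠ j + 1 := by have := Fin.lt_def.mp h'; omega
    simp [Ph, h'.ne, this]

lemma Ph_adj (a b : R) : Ph r a b * (Ph r a b).adjugate = a ^ r • 1 := by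
  rw [mul_adjugate, det_Ph]

lemma adj_Ph (a b : R) : (Ph r a b).adjugate * Ph r a b = a ^ r • 1 := by
  rw [adjugate_mul, det_Ph]

lemma Ph_cancel [IsDomain R] {a b : R} (ha : a ≠ 0) {n : ℕ} {X Y : Matrix (Fin r) (Fin n) R}
    (h : Ph r a b * X = Ph r a b * Y) : X = Y := by
  have := congrArg ((Ph r a b).adjugate * ·) h
  simp only [← Matrix.mul_assoc, adj_Ph, Matrix.smul_mul, Matrix.one_mul] at this
  exact smul_right_injective _ (pow_ne_zero r ha) this

lemma cyc [IsLocalRing R] (w : R) (P0 P1 : Matrix (Fin r) (Fin r) R) (h0 : P0 * P0 = P0)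
    (h : P0 * Ph r w 1 = Ph r w 1 * P1) :
    (∃ Y, P0 = Ph r w 1 * Y) ∨ ∃ Y, 1 - P0 = Ph r w 1 * Y := by
  rcases r with _ | r
  · exact .inl ⟨0, Subsingleton.elim _ _⟩
  let N := LinearMap.range (Ph (r + 1) w 1).mulVecLin
  have hN : ∀ X : Matrix (Fin (r + 1)) (Fin (r + 1)) R, (∀ x, X *ᵥ x ∈ N) →
      ∃ Y, X = Ph (r + 1) w 1 * Y := by
    intro X hX
    choose y hy using fun j => hX (Pi.single j 1)
    refine ⟨(Matrix.of y)ᵀ, ?_⟩
    ext i j
    have := congrFun (hy j) i
    simp only [mulVecLin_apply, mulVec_single_one, col_apply] at this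
    rw [← this]
    rfl
  have c1 : ∀ j : Fin (r + 1), Pi.single j 1 - w ^ (j : ℕ) • Pi.single 0 1 ∈ N := by
    intro j
    induction j using Fin.induction with
    | zero => simp
    | succ j ih =>
      have : Ph (r + 1) w 1 *ᵥ Pi.single j.castSucc 1 ∈ N := ⟨_, rfl⟩
      convert N.sub_mem (N.smul_mem w ih) this using 1
      funext i
      simp only [mulVec_single_one, col_apply, Ph, of_apply, Pi.sub_apply, Pi.smul_apply,
        Pi.single_apply, Fin.ext_iff, Fin.val_succ, Fin.val_castSucc, smul_eq_mul, Fin.val_zero]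
      split_ifs <;> first | omega | ring
  have c2 : ∀ x : Fin (r + 1) → R, ∃ a : R, x - a • Pi.single 0 1 ∈ N := by
    intro x
    refine ⟨∑ j, x j * w ^ (j : ℕ), ?_⟩
    convert N.sum_mem fun j (_ : j ∈ Finset.univ) => N.smul_mem (x j) (c1 j) using 1
    simp only [smul_sub, Finset.sum_sub_distrib, smul_smul, Finset.sum_smul]
    rw [← pi_eq_sum_univ' x]
  have c3 : ∀ x ∈ N, P0 *ᵥ x ∈ N := by
    rintro _ ⟨y, rfl⟩
    exact ⟨P1 *ᵥ y, by simp [h]⟩
  obtain ⟨c, hc⟩ := c2 (P0 *ᵥ Pi.single 0 1)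
  have c4 : ∀ x, P0 *ᵥ x - c • x ∈ N := by
    intro x
    obtain ⟨a, ha⟩ := c2 x
    convert N.sub_mem (N.add_mem (c3 _ ha) (N.smul_mem a hc)) (N.smul_mem c ha) using 1
    simp only [mulVec_sub, mulVec_smul, smul_sub, smul_smul, mul_comm]
    abel
  rcases isUnit_or_isUnit_one_sub_self c with hu | hu
  · refine .inr (hN _ fun x => ?_)
    rw [← N.smul_mem_iff_of_isUnit hu]
    convert N.neg_mem (c4 ((1 - P0) *ᵥ x)) using 1
    rw [mulVec_mulVec, Matrix.mul_sub, h0]
    simp
  · refine .inl (hN _ fun x => ?_)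
    rw [← N.smul_mem_iff_of_isUnit hu]
    convert c4 (P0 *ᵥ x) using 1
    rw [mulVec_mulVec, h0, sub_smul, one_smul]

end

namespace Data

variable {T V : Type} [CommRing T] [IsDomain T] [CommRing V] [IsDomain V]
  [IsDiscreteValuationRing V] (D : Data T V)

lemma unit_away (f0 f1 : Localization.Away D.z →+* FractionRing V)
    (h0 : ∀ t, f0 (algebraMap T _ t) = algebraMap V _ (D.e0 t))
    (h1 : ∀ t, f1 (algebraMap T _ t) = algebraMap V _ (D.e1 t))
    {g : Localization.Away D.z} (hg : IsUnit g) :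
    ∃ a b : V, IsUnit a ∧ algebraMap V _ a * f1 g = algebraMap V _ b * f0 g := by
  obtain ⟨n, d, hd⟩ := IsLocalization.Away.surj D.z g
  have hu : IsUnit (algebraMap T (Localization.Away D.z) d) :=
    hd ▸ hg.mul ((IsLocalization.Away.algebraMap_isUnit D.z).pow n)
  obtain ⟨m, hm⟩ := (IsLocalization.Away.algebraMap_isUnit_iff D.z).mp hu
  obtain ⟨i, -, v, hv⟩ := (dvd_prime_pow D.pz m).mp hm
  refine ⟨D.e1 v, D.e0 v, v.isUnit.map _, ?_⟩
  have a0 := congrArg f0 hd
  have a1 := congrArg f1 hd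
  have b0 := congrArg (algebraMap V (FractionRing V) ∘ D.e0) hv
  have b1 := congrArg (algebraMap V (FractionRing V) ∘ D.e1) hv
  simp only [map_mul, map_pow, h0, h1, D.e0i, D.e1i, Function.comp_apply] at a0 a1 b0 b1
  have hw : algebraMap V (FractionRing V) D.w ≠ 0 := by simpa using D.hw.ne_zero
  refine mul_left_cancel₀ (pow_ne_zero n hw) ?_
  linear_combination algebraMap V (FractionRing V) (D.e1 v) * a1 -
    algebraMap V (FractionRing V) (D.e0 v) * a0 + b1 - b0

variable [IsNoetherianRing T] {B : Type} [CommRing B] (c : B →+* T)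
  (zB : B) {r : ℕ}

lemma rel (hc : ∀ b, D.e0 (c b) = D.e1 (c b)) (P : Matrix (Fin r) (Fin r) B)
    (Q : Matrix (Fin r) (Fin r) T)
    (hPQ : P.map c * Ph r D.z D.s = D.z ^ r • (Ph r D.z D.s * Q)) :
    Q.map D.e0 * Ph r D.w 1 = Ph r D.w 1 * Q.map D.e1 := by
  have a0 := congrArg (·.map D.e0) hPQ
  have a1 := congrArg (·.map D.e1) hPQ
  have hP : (P.map c).map D.e1 = (P.map c).map D.e0 := by ext; simp [hc]
  simp only [Matrix.map_mul, Ph_map, D.e0i, D.e1i, D.e0s, D.e1s, Ph_zero, hP,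
    Matrix.map_smul' _ _ _ (map_mul _), map_pow, Matrix.mul_smul, Matrix.smul_mul, Matrix.mul_one,
    Matrix.one_mul] at a0 a1
  rw [smul_comm] at a0
  rw [smul_right_injective _ D.hw.ne_zero a0, Matrix.smul_mul] at a1
  exact smul_right_injective _ (pow_ne_zero r D.hw.ne_zero) a1

lemma idem_zero [IsDomain (Localization.Away zB)] [IsPrincipalIdealRing (Localization.Away zB)]
    (hc : ∀ b, D.e0 (c b) = D.e1 (c b)) (hz : c zB = D.z) (P : Matrix (Fin r) (Fin r) B)
    (Q : Matrix (Fin r) (Fin r) T) (hP : P * P = zB ^ r • P) (hQ : Q * Q = Q)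
    (hPQ : P.map c * Ph r D.z D.s = D.z ^ r • (Ph r D.z D.s * Q))
    (Y : Matrix (Fin r) (Fin r) V) (hY : Q.map D.e0 = Ph r D.w 1 * Y) : Q = 0 := by
  have hrel := D.rel c hc P Q hPQ
  let A := Localization.Away zB
  let A' := Localization.Away D.z
  let F := FractionRing V
  have hw : IsUnit (algebraMap V F D.w) :=
    IsLocalization.map_units F ⟨D.w, mem_nonZeroDivisors_of_ne_zero D.hw.ne_zero⟩
  let f0 : A' →+* F := IsLocalization.Away.lift D.z (g := (algebraMap V F).comp D.e0)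
    (by rw [RingHom.comp_apply, D.e0i]; exact hw)
  let f1 : A' →+* F := IsLocalization.Away.lift D.z (g := (algebraMap V F).comp D.e1)
    (by rw [RingHom.comp_apply, D.e1i]; exact hw)
  have h0 : ∀ t, f0 (algebraMap T _ t) = algebraMap V _ (D.e0 t) := fun t => by simp [f0]
  have h1 : ∀ t, f1 (algebraMap T _ t) = algebraMap V _ (D.e1 t) := fun t => by simp [f1]
  let θ : A →+* A' := IsLocalization.Away.lift zB (g := (algebraMap T A').comp c)
    (by simpa [hz] using IsLocalization.Away.algebraMap_isUnit D.z)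
  have hθ : ∀ b, θ (algebraMap B _ b) = algebraMap T _ (c b) := fun b => by simp [θ]
  have hf : f1.comp θ = f0.comp θ :=
    IsLocalization.ringHom_ext (Submonoid.powers zB) (RingHom.ext fun b => by
      simp [hθ, h0, h1, hc])
  obtain ⟨y, hy⟩ := ((IsLocalization.Away.algebraMap_isUnit (S := A) zB).pow r).exists_left_inv
  let P' : Matrix (Fin r) (Fin r) A := y • P.map (algebraMap B A)
  have hP' : P' * P' = P' := by
    simp only [P', Matrix.smul_mul, Matrix.mul_smul, ← Matrix.map_mul, hP,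
      Matrix.map_smul' _ _ _ (map_mul _), map_pow, smul_smul]
    rw [hy, mul_one]
  obtain ⟨n, E, G, hEG, hGE⟩ := idem_factor P' hP'
  have : Module.Free T (LinearMap.range Q.mulVecLin) := by
    refine D.freeT _ ((IsSMulRegular.of_ne_zero D.pz.ne_zero).submodule _) ?_
    rintro ⟨_, x, rfl⟩ ⟨y, hy⟩ h
    have h' : D.u • Q *ᵥ x = D.z • y := congrArg Subtype.val h
    choose x' hx' using fun i => (D.pz.dvd_or_dvd ⟨_, congrFun h' i⟩).resolve_left D.zu
    have hx : Q *ᵥ x = D.z • x' := funext hx'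
    refine ⟨⟨Q *ᵥ x', x', rfl⟩, Subtype.ext ?_⟩
    change Q *ᵥ x = D.z • Q *ᵥ x'
    rw [← mulVec_smul, ← hx, mulVec_mulVec, hQ]
  obtain ⟨n', E', G', hEG', hGE'⟩ := idem_factor Q hQ
  let a := algebraMap T A'
  have hy' : θ y * a D.z ^ r = 1 := by simpa [hθ, hz] using congrArg θ hy
  let Φ := Ph r (a D.z) (a D.s)
  have k1 : P'.map θ * Φ = Φ * Q.map a := by
    have := congrArg (·.map a) hPQ
    simp only [Matrix.map_mul, Ph_map, Matrix.map_smul' _ _ _ (map_mul _), map_pow] at this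
    have h2 : (P.map (algebraMap B A)).map θ = (P.map c).map a := by ext; simp [hθ, a]
    simp only [P', Matrix.map_smul' _ _ _ (map_mul _), h2, Matrix.smul_mul, Φ, this, smul_smul,
      hy', one_smul]
  let Ψ := θ y • Φ.adjugate
  have k2 : Φ * Ψ = 1 := by simp only [Ψ, Φ, Matrix.mul_smul, Ph_adj, smul_smul, hy', one_smul]
  have k3 : Ψ * Φ = 1 := by simp only [Ψ, Φ, Matrix.smul_mul, adj_Ph, smul_smul, hy', one_smul]
  have m1 : E.map θ * G.map θ = P'.map θ := by rw [← Matrix.map_mul, hEG]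
  have m2 : G.map θ * E.map θ = 1 := by rw [← Matrix.map_mul, hGE]; simp
  have m3 : E'.map a * G'.map a = Q.map a := by rw [← Matrix.map_mul, hEG']
  have m4 : G'.map a * E'.map a = 1 := by rw [← Matrix.map_mul, hGE']; simp
  have k4 : (G.map θ * Φ * E'.map a) * (G'.map a * Ψ * E.map θ) = 1 := by
    calc _ = G.map θ * (Φ * (E'.map a * G'.map a)) * Ψ * E.map θ := by
          simp only [Matrix.mul_assoc]
      _ = (G.map θ * E.map θ) * G.map θ * (Φ * Ψ) * E.map θ := by
          rw [m3, ← k1, ← m1]; simp only [Matrix.mul_assoc]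
      _ = 1 := by rw [m2, k2, Matrix.one_mul, Matrix.mul_one, m2]
  have k5 : (G'.map a * Ψ * E.map θ) * (G.map θ * Φ * E'.map a) = 1 := by
    calc _ = G'.map a * Ψ * ((E.map θ * G.map θ) * Φ) * E'.map a := by
          simp only [Matrix.mul_assoc]
      _ = G'.map a * (Ψ * Φ) * E'.map a * (G'.map a * E'.map a) := by
          rw [m1, k1, ← m3]; simp only [Matrix.mul_assoc]
      _ = 1 := by rw [m4, k3, Matrix.mul_one, Matrix.mul_one, m4]
  have : Nontrivial A' := f0.domain_nontrivial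
  obtain rfl : n = n' := by simpa using Matrix.square_of_invertible _ _ k4 k5
  have hu := Matrix.isUnit_det_of_right_inverse k4
  obtain ⟨α, β, hα, hαβ⟩ := D.unit_away f0 f1 h0 h1 hu
  let H := G'.map D.e0 * Ph r D.w 1 * E'.map D.e1
  have n0 : E'.map D.e0 * G'.map D.e0 = Q.map D.e0 := by rw [← Matrix.map_mul, hEG']
  have n1 : E'.map D.e1 * G'.map D.e1 = Q.map D.e1 := by rw [← Matrix.map_mul, hEG']
  have n2 : G'.map D.e0 * E'.map D.e0 = 1 := by rw [← Matrix.map_mul, hGE']; simp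
  have n3 : G'.map D.e1 * E'.map D.e1 = 1 := by rw [← Matrix.map_mul, hGE']; simp
  have hH : H * (G'.map D.e1 * Y * E'.map D.e0) = 1 := by
    calc _ = G'.map D.e0 * (Ph r D.w 1 * (E'.map D.e1 * G'.map D.e1)) * Y * E'.map D.e0 := by
          simp only [H, Matrix.mul_assoc]
      _ = G'.map D.e0 * Q.map D.e0 * (Ph r D.w 1 * Y) * E'.map D.e0 := by
          rw [n1, ← hrel]; simp only [Matrix.mul_assoc]
      _ = (G'.map D.e0 * E'.map D.e0) * (G'.map D.e0 * E'.map D.e0) *
            (G'.map D.e0 * E'.map D.e0) := by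
          rw [← hY, ← n0]; simp only [Matrix.mul_assoc]
      _ = 1 := by simp [n2]
  have hH' : E'.map D.e0 * H = Ph r D.w 1 * E'.map D.e1 := by
    calc _ = (E'.map D.e0 * G'.map D.e0) * Ph r D.w 1 * E'.map D.e1 := by
          simp only [H, Matrix.mul_assoc]
      _ = Ph r D.w 1 * E'.map D.e1 * (G'.map D.e1 * E'.map D.e1) := by
          rw [n0, hrel, ← n1]; simp only [Matrix.mul_assoc]
      _ = _ := by rw [n3, Matrix.mul_one]
  let j := algebraMap V F
  let X := G.map (f0.comp θ) * (E'.map D.e0).map j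
  have t0 : (G.map θ * Φ * E'.map a).map f0 = j D.w • X := by
    have : (E'.map a).map f0 = (E'.map D.e0).map j := by ext; simp [a, h0, j]
    simp only [Matrix.map_mul, Φ, Ph_map, a, h0, D.e0i, D.e0s, map_zero, Ph_zero, Matrix.mul_smul,
      Matrix.smul_mul, Matrix.mul_one, X]
    rw [this]
    rfl
  have t1 : (G.map θ * Φ * E'.map a).map f1 = X * H.map j := by
    have : (E'.map a).map f1 = (E'.map D.e1).map j := by ext; simp [a, h1, j]
    rw [Matrix.mul_assoc _ _ (H.map j), ← Matrix.map_mul, hH', ← hf]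
    simp only [Matrix.map_mul, Φ, Ph_map, a, h1, D.e1i, D.e1s, Matrix.mul_assoc]
    rw [this]
    rfl
  have hX : f0 (G.map θ * Φ * E'.map a).det ≠ 0 := (hu.map f0).ne_zero
  rw [RingHom.map_det, RingHom.map_det, RingHom.mapMatrix_apply, RingHom.mapMatrix_apply, t0, t1,
    det_mul, det_smul, ← RingHom.mapMatrix_apply, ← RingHom.map_det] at hαβ
  rw [RingHom.map_det, RingHom.mapMatrix_apply, t0, det_smul] at hX
  have e : α * H.det = β * D.w ^ n := by
    apply IsFractionRing.injective V F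
    refine mul_left_cancel₀ (right_ne_zero_of_mul hX) ?_
    simp only [map_mul, map_pow, Fintype.card_fin] at hαβ ⊢
    linear_combination hαβ
  have hun : IsUnit (D.w ^ n) := isUnit_of_mul_isUnit_right
    (e ▸ hα.mul (Matrix.isUnit_det_of_right_inverse hH))
  rcases n with _ | n
  · rw [← hEG']
    ext i j
    simp [Matrix.mul_apply]
  · exact absurd ((isUnit_pow_iff (by omega)).mp hun) D.hw.not_isUnit

end Data

end Pool.Agent.H.MP_8741c9_al
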