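import Pool.Agent.H.MP_8741c9_al.F
import Pool.Agent.H.MP_8741c9_al.G

set_option linter.unusedSectionVars false

namespace Pool.Agent.H.MP_8741c9_al

open IsLocalRing Matrix RingTheory.Sequence

namespace Data

variable {T V : Type} [CommRing T] [IsDomain T] [CommRing V] [IsDomain V]
  [IsDiscreteValuationRing V] (D : Data T V) [IsNoetherianRing T] [IsNoetherianRing D.S]
  {A : Type} [CommRing A] [IsDomain A] [UniqueFactorizationMonoid A] (N : Nag A D.S)

def cB : N.B →+* T := D.S.subtype.comp N.B.subtype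

lemma cB_inj : Function.Injective (D.cB N) := Subtype.val_injective.comp Subtype.val_injective

def Mr (r : ℕ) : Submodule N.B (Fin r → N.B) where
  carrier := {x | ∃ a : Fin r → T, D.cB N ∘ x = Ph r D.z D.s *ᵥ a}
  add_mem' := by
    rintro x y ⟨a, ha⟩ ⟨b, hb⟩
    exact ⟨a + b, by rw [mulVec_add, ← ha, ← hb]; funext i; simp⟩
  zero_mem' := ⟨0, by funext i; simp⟩
  smul_mem' := by
    rintro c x ⟨a, ha⟩
    exact ⟨D.cB N c • a, by rw [mulVec_smul, ← ha]; funext i; simp⟩

variable {N} (hz : N.z = D.zS) {uB : N.B} (hu : (uB : D.S) = D.uS) (r : ℕ)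
include hz

lemma cB_z : D.cB N N.zB = D.z := congrArg Subtype.val hz

lemma zr_mem (x : Fin r → N.B) : N.zB ^ r • x ∈ D.Mr N r :=
  ⟨(Ph r D.z D.s).adjugate *ᵥ (D.cB N ∘ x), by
    rw [mulVec_mulVec, Ph_adj, smul_mulVec, one_mulVec]
    funext i
    simp [D.cB_z hz]⟩

lemma indec (π : D.Mr N r →ₗ[N.B] D.Mr N r) (hπ : π ∘ₗ π = π) : π = 0 ∨ π = LinearMap.id := by
  have hcz := D.cB_z hz
  have hz0 : D.z ^ r ≠ 0 := pow_ne_zero r D.pz.ne_zero
  have hzB0 : N.zB ^ r ≠ 0 := pow_ne_zero r N.primeB.ne_zero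
  set c := D.cB N with hc
  set Φ := Ph r D.z D.s with hΦ
  let b : Fin r → D.Mr N r := fun j => ⟨_, D.zr_mem hz r (Pi.single j 1)⟩
  let P : Matrix (Fin r) (Fin r) N.B := Matrix.of fun i j => (π (b j)).1 i
  have hP : ∀ x : D.Mr N r, P *ᵥ x.1 = N.zB ^ r • (π x).1 := by
    intro x
    have : N.zB ^ r • x = ∑ j, x.1 j • b j := by
      apply Subtype.ext
      simp only [Submodule.coe_smul, Submodule.coe_sum, b]
      conv_lhs => rw [pi_eq_sum_univ' x.1, Finset.smul_sum]
      exact Finset.sum_congr rfl fun j _ => smul_comm _ _ _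
    rw [← Submodule.coe_smul, ← map_smul, this, map_sum]
    funext i
    simp [P, mulVec, dotProduct, mul_comm]
  have hPP : P * P = N.zB ^ r • P := by
    ext1 i j
    have := congrFun (hP (π (b j))) i
    rw [← LinearMap.comp_apply, hπ] at this
    exact this
  choose a ha using fun j => (π (b j)).2
  have hA : P.map c = Φ * (Matrix.of a)ᵀ := by
    ext i j
    exact congrFun (ha j) i
  have key : ∀ x : Fin r → T, ∃ x', P.map c *ᵥ (Φ *ᵥ (D.u • x)) = D.z ^ r • Φ *ᵥ x' := by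
    intro x
    choose p y hy using fun i => N.dens r ⟨D.u * (Φ *ᵥ x) i, D.umem _⟩
    have h1 : Φ *ᵥ (D.u • x) = c ∘ p + D.z ^ r • fun i => (y i : T) := by
      funext i
      have := congrArg Subtype.val (hy i)
      rw [hz] at this
      simpa [mulVec_smul, hc, cB] using this
    have h2 : p ∈ D.Mr N r := ⟨D.u • x - Φ.adjugate *ᵥ fun i => (y i : T), by
      rw [mulVec_sub, h1, mulVec_mulVec, Ph_adj, smul_mulVec, one_mulVec, add_sub_cancel_right]⟩
    obtain ⟨a1, ha1⟩ := (π ⟨p, h2⟩).2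
    refine ⟨a1 + (Matrix.of a)ᵀ *ᵥ fun i => (y i : T), ?_⟩
    rw [h1, mulVec_add, mulVec_add, smul_add, mulVec_smul, mulVec_mulVec, ← hA, ← ha1]
    congr 1
    funext i
    rw [← RingHom.map_mulVec, hP ⟨p, h2⟩]
    simp [D.cB_z hz, hc]
  choose a' ha' using fun j => key (Pi.single j 1)
  have h3 : D.u • ((Matrix.of a)ᵀ * Φ) = D.z ^ r • (Matrix.of a')ᵀ := by
    refine Ph_cancel (b := D.s) D.pz.ne_zero ?_
    rw [Matrix.mul_smul, Matrix.mul_smul, ← Matrix.mul_assoc, ← hA]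
    ext i j
    have := congrFun (ha' j) i
    rw [mulVec_mulVec, mulVec_smul, mulVec_single_one] at this
    exact this
  choose q hq using fun i j => D.pz.pow_dvd_of_dvd_mul_left r D.zu
    ⟨_, congrFun (congrFun h3 i) j⟩
  let Q : Matrix (Fin r) (Fin r) T := Matrix.of q
  have hPQ : P.map c * Φ = D.z ^ r • (Φ * Q) := by
    rw [hA, Matrix.mul_assoc, ← Matrix.mul_smul]
    congr 1
    ext i j
    exact hq i j
  have hPc : P.map c * P.map c = D.z ^ r • P.map c := by
    rw [← Matrix.map_mul, hPP, Matrix.map_smul' _ _ _ (map_mul _), map_pow, hcz]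
  have hQ : Q * Q = Q := by
    refine Ph_cancel (b := D.s) D.pz.ne_zero (smul_right_injective _ hz0
      (smul_right_injective _ hz0 ?_))
    change D.z ^ r • D.z ^ r • (Φ * (Q * Q)) = D.z ^ r • D.z ^ r • (Φ * Q)
    calc _ = D.z ^ r • ((D.z ^ r • (Φ * Q)) * Q) := by rw [Matrix.smul_mul, Matrix.mul_assoc]
      _ = P.map c * (D.z ^ r • (Φ * Q)) := by
        rw [← hPQ, Matrix.mul_assoc, ← Matrix.mul_smul, ← hPQ]
      _ = _ := by rw [← hPQ, ← Matrix.mul_assoc, hPc, Matrix.smul_mul]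
  have he : ∀ x, D.e0 (c x) = D.e1 (c x) := fun x => x.1.2
  have : IsDomain (Localization.Away N.zB) := IsLocalization.isDomain_localization
    (powers_le_nonZeroDivisors_of_noZeroDivisors N.primeB.ne_zero)
  have := N.pidAway
  have fin : ∀ P : Matrix (Fin r) (Fin r) N.B, P.map c * Φ = 0 → P = 0 := by
    intro P h
    have := congrArg (· * Φ.adjugate) h
    simp only [Matrix.mul_assoc, hΦ, Ph_adj, Matrix.mul_smul, Matrix.mul_one, Matrix.zero_mul,
      smul_eq_zero, hz0, false_or] at this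
    ext1 i j
    exact D.cB_inj N ((congrFun (congrFun this i) j).trans (map_zero c).symm)
  rcases cyc D.w (Q.map D.e0) (Q.map D.e1) (by rw [← Matrix.map_mul, hQ])
    (D.rel c he P Q hPQ) with ⟨Y, hY⟩ | ⟨Y, hY⟩
  · have := D.idem_zero c N.zB he hcz P Q hPP hQ hPQ Y hY
    rw [this, Matrix.mul_zero, smul_zero] at hPQ
    refine .inl (LinearMap.ext fun x => Subtype.ext (smul_right_injective _ hzB0 ?_))
    change N.zB ^ r • (π x).1 = N.zB ^ r • 0
    rw [← hP, fin P hPQ]
    simp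
  · have hPQ' : (N.zB ^ r • 1 - P).map c * Φ = D.z ^ r • (Φ * (1 - Q)) := by
      rw [Matrix.map_sub _ (map_sub c), Matrix.sub_mul, hPQ, Matrix.map_smul' _ _ _ (map_mul _),
        map_pow, hcz, Matrix.mul_sub, smul_sub]
      simp
    have := D.idem_zero c N.zB he hcz (N.zB ^ r • 1 - P) (1 - Q)
      (by simp [Matrix.sub_mul, Matrix.mul_sub, hPP, smul_sub])
      (by simp [Matrix.sub_mul, Matrix.mul_sub, hQ]) hPQ' Y
      (by rw [← hY, Matrix.map_sub _ (map_sub _)]; simp)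
    rw [this, Matrix.mul_zero, smul_zero] at hPQ'
    refine .inr (LinearMap.ext fun x => Subtype.ext (smul_right_injective _ hzB0 ?_))
    change N.zB ^ r • (π x).1 = N.zB ^ r • x.1
    rw [← hP, ← sub_eq_zero.mp (fin _ hPQ'), smul_mulVec, one_mulVec]

include hu

lemma zu_B : ¬ N.zB ∣ uB := by rw [N.zB_dvd, hz, hu]; exact D.zuS

lemma uB_m : uB ∈ maximalIdeal N.B := by rw [N.mem_m, hu]; exact D.uS_m

lemma Mr_zu (x y : D.Mr N r) (h : uB • x = N.zB • y) : ∃ w, x = N.zB • w := by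
  have h' : uB • x.1 = N.zB • y.1 := congrArg Subtype.val h
  choose x' hx' using fun i =>
    (N.primeB.dvd_or_dvd ⟨_, congrFun h' i⟩).resolve_left (D.zu_B hz hu)
  obtain ⟨a, ha⟩ := x.2
  obtain ⟨b, hb⟩ := y.2
  have hcu : D.cB N uB = D.u := congrArg Subtype.val hu
  have inj : ∀ p q : Fin r → T, Ph r D.z D.s *ᵥ p = Ph r D.z D.s *ᵥ q → p = q := by
    intro p q h
    have := congrArg ((Ph r D.z D.s).adjugate *ᵥ ·) h
    simp only [mulVec_mulVec, adj_Ph, smul_mulVec, one_mulVec] at this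
    exact smul_right_injective _ (pow_ne_zero r D.pz.ne_zero) this
  have h2 : D.u • a = D.z • b := inj _ _ (by
    rw [mulVec_smul, mulVec_smul, ← ha, ← hb]
    funext i
    simpa [hcu, D.cB_z hz] using congrArg (D.cB N) (congrFun h' i))
  choose a' ha' using fun i => (D.pz.dvd_or_dvd ⟨_, congrFun h2 i⟩).resolve_left D.zu
  refine ⟨⟨x', a', smul_right_injective _ D.pz.ne_zero ?_⟩, Subtype.ext (funext hx')⟩
  change D.z • _ = D.z • _
  rw [← mulVec_smul, ← (funext ha' : a = D.z • a'), ← ha]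
  funext i
  simp [hx' i, D.cB_z hz]

lemma mB_sq {x y : N.B} (hx : x ∈ maximalIdeal N.B) (hy : y ∈ maximalIdeal N.B) :
    ∃ a b : N.B, x * y = N.zB * a + uB * b := by
  obtain ⟨a, b, h⟩ := D.m_sq (N.mem_m.mp hx) (N.mem_m.mp hy)
  obtain ⟨c, hc, w, e⟩ := N.apx_ideal' (Ideal.span {N.zB, uB}) 1 (x := x * y) (by
    rw [Subring.coe_mul, h, ← hz, ← hu]
    exact Ideal.add_mem _
      (Ideal.mul_mem_right _ _ (Ideal.mem_map_of_mem _ (x := N.zB) (Ideal.subset_span (by simp))))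
      (Ideal.mul_mem_right _ _ (Ideal.mem_map_of_mem _ (x := uB) (Ideal.subset_span (by simp)))))
  obtain ⟨p, q, rfl⟩ := Ideal.mem_span_pair.mp hc
  exact ⟨p + w, q, by linear_combination e⟩

lemma regB : IsRegular N.B [N.zB, uB] :=
  reg_pair (N.mem_m.mpr N.zm) (D.uB_m hz hu) (fun a b h => mul_left_cancel₀ N.primeB.ne_zero h)
    fun x y h => (N.primeB.dvd_or_dvd ⟨y, h⟩).resolve_left (D.zu_B hz hu)

lemma dimB : ringKrullDim N.B = 2 := dim_two (D.regB hz hu) fun _ hx => D.mB_sq hz hu hx hx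

lemma Mr_len : (r : ℕ∞) ≤
    Module.length N.B (D.Mr N r ⧸ K (K (⊥ : Submodule N.B (D.Mr N r)) N.zB) uB) := by
  by_contra! h
  obtain ⟨n, hn⟩ := ENat.ne_top_iff_exists.mp h.ne_top
  obtain ⟨s, hs, hs'⟩ := gens_of_len n _ hn.ge
  have htop : ⊤ ≤ Submodule.span N.B (s : Set (D.Mr N r)) := by
    refine Submodule.le_of_le_smul_of_le_jacobson_bot (I := maximalIdeal N.B)
      (IsNoetherian.noetherian _) (maximalIdeal_le_jacobson _) ?_
    refine hs'.ge.trans ((sup_comm _ _).le.trans (sup_le_sup_left (fun m hm => ?_) _))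
    obtain ⟨a, b, rfl⟩ := mem_KK.mp hm
    exact Submodule.add_mem _ (Submodule.smul_mem_smul (N.mem_m.mpr N.zm) trivial)
      (Submodule.smul_mem_smul (D.uB_m hz hu) trivial)
  let b : Fin r → D.Mr N r := fun j => ⟨_, D.zr_mem hz r (Pi.single j 1)⟩
  have hb : LinearIndependent N.B b := by
    rw [Fintype.linearIndependent_iff]
    intro g hg i
    have := congrFun (congrArg Subtype.val hg) i
    simpa [b, Pi.single_apply, N.primeB.ne_zero] using this
  have := linearIndependent_le_span_aux' b hb (s : Set (D.Mr N r)) fun x _ => htop trivial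
  rw [← hn, Nat.cast_lt] at h
  simp at this
  omega

end Data

end Pool.Agent.H.MP_8741c9_al
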