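import Mathlib

namespace Pool.Agent.H.MP_8741c9_al

open IsLocalRing RingTheory.Sequence

section Len
variable {R M : Type} [CommRing R] [AddCommGroup M] [Module R M]

/-- `N + x M`. -/
def K (N : Submodule R M) (x : R) : Submodule R M := N ⊔ LinearMap.range (LinearMap.lsmul R M x)

lemma mem_K {N : Submodule R M} {x : R} {m : M} : m ∈ K N x ↔ ∃ y, m - x • y ∈ N := by
  simp only [K, Submodule.mem_sup, LinearMap.mem_range, LinearMap.lsmul_apply]
  constructor
  · rintro ⟨a, ha, _, ⟨y, rfl⟩, rfl⟩
    exact ⟨y, by simpa using ha⟩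
  · rintro ⟨y, hy⟩
    exact ⟨_, hy, _, ⟨y, rfl⟩, by simp⟩

lemma K_comm (N : Submodule R M) (x y : R) : K (K N x) y = K (K N y) x := by
  simp only [K, sup_assoc]
  rw [sup_comm (LinearMap.range _)]

lemma mem_KK {x y : R} {m : M} : m ∈ K (K ⊥ x) y ↔ ∃ a b, m = x • a + y • b := by
  simp only [mem_K, Submodule.mem_bot]
  constructor
  · rintro ⟨b, a, h⟩
    exact ⟨a, b, by rw [← sub_eq_zero, ← h]; abel⟩
  · rintro ⟨a, b, rfl⟩
    exact ⟨b, a, by abel⟩

lemma len_mono {N N' : Submodule R M} (h : N ≤ N') :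
    Module.length R (M ⧸ N') ≤ Module.length R (M ⧸ N) :=
  Module.length_le_of_surjective (Submodule.factor h) (Submodule.factor_surjective h)

/-- multiplication by `x` as a map `M/(N+yM) → M/(N+xyM)`. -/
def mulK (N : Submodule R M) (x y : R) : (M ⧸ K N y) →ₗ[R] (M ⧸ K N (x * y)) :=
  Submodule.mapQ _ _ (LinearMap.lsmul R M x) (by
    intro m hm
    obtain ⟨w, hw⟩ := mem_K.mp hm
    refine mem_K.mpr ⟨w, ?_⟩
    have := N.smul_mem x hw
    simpa [smul_sub, mul_smul] using this)

lemma K_mul_le (N : Submodule R M) (x y : R) : K N (x * y) ≤ K N x := by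
  intro m hm
  obtain ⟨w, hw⟩ := mem_K.mp hm
  exact mem_K.mpr ⟨y • w, by simpa [mul_smul] using hw⟩

lemma exact_mulK (N : Submodule R M) (x y : R) :
    Function.Exact (mulK N x y) (Submodule.factor (K_mul_le N x y)) := by
  intro q
  obtain ⟨m, rfl⟩ := Submodule.Quotient.mk_surjective _ q
  constructor
  · intro h
    have h' : m ∈ K N x := (Submodule.Quotient.mk_eq_zero _).mp h
    obtain ⟨w, hw⟩ := mem_K.mp h'
    refine ⟨Submodule.Quotient.mk w, ?_⟩
    change Submodule.Quotient.mk (x • w) = _
    rw [Submodule.Quotient.eq]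
    exact mem_K.mpr ⟨0, by simpa using N.neg_mem hw⟩
  · rintro ⟨q', h⟩
    obtain ⟨w, rfl⟩ := Submodule.Quotient.mk_surjective _ q'
    rw [← h]
    exact (Submodule.Quotient.mk_eq_zero _).mpr (mem_K.mpr ⟨w, by simp⟩)

lemma len_mul_le (N : Submodule R M) (x y : R) :
    Module.length R (M ⧸ K N (x * y)) ≤
      Module.length R (M ⧸ K N y) + Module.length R (M ⧸ K N x) := by
  have he : Function.Exact (LinearMap.range (mulK N x y)).subtype
      (Submodule.factor (K_mul_le N x y)) := by
    intro q
    rw [exact_mulK N x y q]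
    simp
  rw [Module.length_eq_add_of_exact _ _ (Submodule.subtype_injective _)
    (Submodule.factor_surjective _) he]
  gcongr
  exact Module.length_le_of_surjective _ (mulK N x y).surjective_rangeRestrict

lemma len_mul_eq (N : Submodule R M) (x y : R) (h : ∀ m, x • m ∈ N → m ∈ N) :
    Module.length R (M ⧸ K N (x * y)) =
      Module.length R (M ⧸ K N y) + Module.length R (M ⧸ K N x) := by
  refine Module.length_eq_add_of_exact _ _ ?_ (Submodule.factor_surjective _) (exact_mulK N x y)
  rw [injective_iff_map_eq_zero]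
  intro q hq
  obtain ⟨m, rfl⟩ := Submodule.Quotient.mk_surjective _ q
  have h' : x • m ∈ K N (x * y) := (Submodule.Quotient.mk_eq_zero _).mp hq
  obtain ⟨w, hw⟩ := mem_K.mp h'
  refine (Submodule.Quotient.mk_eq_zero _).mpr (mem_K.mpr ⟨w, h _ ?_⟩)
  simpa [smul_sub, mul_smul] using hw

lemma len_one (N : Submodule R M) : Module.length R (M ⧸ K N 1) = 0 := by
  rw [Module.length_eq_zero_iff, Submodule.Quotient.subsingleton_iff, eq_top_iff]
  intro m _
  exact mem_K.mpr ⟨m, by simp⟩

lemma len_pow_le (N : Submodule R M) (x : R) (n : ℕ) :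
    Module.length R (M ⧸ K N (x ^ n)) ≤ n * Module.length R (M ⧸ K N x) := by
  induction n with
  | zero => rw [pow_zero, len_one]; simp
  | succ n ih =>
    rw [pow_succ']
    refine (len_mul_le N x _).trans ?_
    push_cast
    rw [add_mul, one_mul]
    gcongr

lemma len_pow_eq (N : Submodule R M) (x : R) (h : ∀ m, x • m ∈ N → m ∈ N) (n : ℕ) :
    Module.length R (M ⧸ K N (x ^ n)) = n * Module.length R (M ⧸ K N x) := by
  induction n with
  | zero => rw [pow_zero, len_one]; simp
  | succ n ih =>
    rw [pow_succ', len_mul_eq N x _ h, ih]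
    push_cast
    rw [add_mul, one_mul]

lemma len_sq_le (x y : R) (n : ℕ) :
    Module.length R (M ⧸ K (K (⊥ : Submodule R M) (x ^ n)) (y ^ n)) ≤
      n * n * Module.length R (M ⧸ K (K (⊥ : Submodule R M) x) y) := by
  refine (len_pow_le _ _ _).trans ?_
  rw [K_comm, mul_assoc]
  gcongr
  refine (len_pow_le _ _ _).trans ?_
  rw [K_comm]

lemma len_sq_eq (x y : R) (hx : IsSMulRegular M x) (hy : IsSMulRegular M y)
    (h : ∀ a b : M, y • a = x • b → ∃ c, a = x • c) (n : ℕ) :
    Module.length R (M ⧸ K (K (⊥ : Submodule R M) (x ^ n)) (y ^ n)) =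
      n * n * Module.length R (M ⧸ K (K (⊥ : Submodule R M) x) y) := by
  have h1 : ∀ n : ℕ, ∀ a b : M, y • a = x ^ n • b → ∃ c, a = x ^ n • c := by
    intro n
    induction n with
    | zero => intro a b _; exact ⟨a, by simp⟩
    | succ n ih =>
      intro a b hab
      obtain ⟨c, rfl⟩ := h a (x ^ n • b) (by rw [hab, pow_succ', mul_smul])
      obtain ⟨d, rfl⟩ := ih c b (hx (by
        change x • y • c = x • x ^ n • b
        rw [smul_comm, hab, pow_succ', mul_smul]))
      exact ⟨d, by rw [pow_succ', mul_smul]⟩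
  rw [len_pow_eq, K_comm, len_pow_eq, K_comm, mul_assoc]
  · intro m hm
    obtain ⟨w, hw⟩ := mem_K.mp hm
    obtain ⟨c, rfl⟩ := h w m (by rw [eq_comm, ← sub_eq_zero]; simpa using hw)
    refine mem_K.mpr ⟨c, ?_⟩
    rw [Submodule.mem_bot, sub_eq_zero] at hw ⊢
    exact hx (by change x • m = x • y • c; rw [hw, smul_comm])
  · intro m hm
    obtain ⟨w, hw⟩ := mem_K.mp hm
    obtain ⟨c, rfl⟩ := h1 n m w (by rw [← sub_eq_zero]; simpa using hw)
    exact mem_K.mpr ⟨c, by simp⟩

lemma gens_of_len (n : ℕ) : ∀ N : Submodule R M, Module.length R (M ⧸ N) ≤ n →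
    ∃ s : Finset M, s.card ≤ n ∧ N ⊔ Submodule.span R (s : Set M) = ⊤ := by
  classical
  induction n with
  | zero =>
    intro N h
    have : Module.length R (M ⧸ N) = 0 := by simpa using h
    rw [Module.length_eq_zero_iff, Submodule.Quotient.subsingleton_iff] at this
    exact ⟨∅, by simp, by simp [this]⟩
  | succ n ih =>
    intro N h
    by_cases hN : N = ⊤
    · exact ⟨∅, by simp, by simp [hN]⟩
    obtain ⟨x, hx⟩ : ∃ x, x ∉ N := by
      by_contra! hh
      exact hN (eq_top_iff.mpr fun x _ => hh x)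
    have hlt : N < N ⊔ Submodule.span R {x} := by
      refine lt_of_le_of_ne le_sup_left fun he => hx ?_
      rw [he]
      exact Submodule.mem_sup_right (Submodule.mem_span_singleton_self x)
    have h2 := Order.coheight_add_one_le hlt
    rw [Module.length_quotient] at h
    obtain ⟨s, hs, hs'⟩ := ih (N ⊔ Submodule.span R {x}) (by
      rw [Module.length_quotient]
      have := h2.trans h
      push_cast at this
      exact (ENat.add_le_add_iff_right (by simp)).mp this)
    refine ⟨insert x s, (Finset.card_insert_le _ _).trans (by omega), ?_⟩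
    rw [Finset.coe_insert, Submodule.span_insert, ← sup_assoc, hs']

end Len

section Reg
variable {R M : Type} [CommRing R] [AddCommGroup M] [Module R M]

lemma quot_reg_iff (a b : R) : IsSMulRegular (QuotSMulTop a M) b ↔
    ∀ x y : M, b • x = a • y → ∃ w, x = a • w := by
  rw [isSMulRegular_quotient_iff_mem_of_smul_mem]
  simp only [Submodule.mem_smul_pointwise_iff_exists, Submodule.mem_top, true_and]
  constructor
  · intro h x y hxy
    obtain ⟨w, hw⟩ := h x ⟨y, hxy.symm⟩
    exact ⟨w, hw.symm⟩
  · rintro h x ⟨y, hy⟩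
    obtain ⟨w, hw⟩ := h x y hy.symm
    exact ⟨w, hw.symm⟩

lemma wreg_pair (a b : R) : IsWeaklyRegular M [a, b] ↔
    IsSMulRegular M a ∧ ∀ x y : M, b • x = a • y → ∃ w, x = a • w := by
  rw [isWeaklyRegular_cons_iff, isWeaklyRegular_singleton_iff, quot_reg_iff]

variable [IsLocalRing R] [IsNoetherianRing R] [Module.Finite R M]

lemma reg_pair [Nontrivial M] {a b : R} (ha : a ∈ maximalIdeal R) (hb : b ∈ maximalIdeal R)
    (h1 : IsSMulRegular M a) (h2 : ∀ x y : M, b • x = a • y → ∃ w, x = a • w) :
    IsRegular M [a, b] :=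
  IsRegular.of_isWeaklyRegular_of_mem_maximalIdeal M (by simpa using ⟨ha, hb⟩)
    ((wreg_pair a b).mpr ⟨h1, h2⟩)

lemma length_le_supp {rs : List R} (h : IsRegular M rs) :
    (rs.length : WithBot ℕ∞) ≤ Module.supportDim R M := by
  rw [← Module.supportDim_add_length_eq_supportDim_of_isRegular rs h]
  have : Nontrivial (M ⧸ Ideal.ofList rs • (⊤ : Submodule R M)) :=
    Submodule.Quotient.nontrivial_iff.mpr h.2.symm
  have h0 : 0 ≤ Module.supportDim R (M ⧸ Ideal.ofList rs • (⊤ : Submodule R M)) := by
    have := (Module.supportDim_ne_bot_of_nontrivial R (M ⧸ Ideal.ofList rs • (⊤ : Submodule R M)))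
    exact WithBot.bot_lt_iff_ne_bot.mpr this |> fun h => by
      obtain ⟨x, hx⟩ := WithBot.ne_bot_iff_exists.mp this
      rw [← hx]
      exact WithBot.coe_le_coe.mpr bot_le
  exact le_add_of_nonneg_left h0

lemma length_le_dim {rs : List R} (h : IsRegular M rs) :
    (rs.length : WithBot ℕ∞) ≤ ringKrullDim R :=
  (length_le_supp h).trans (Module.supportDim_le_ringKrullDim R M)

omit [Module.Finite R M] in
lemma dim_two {z u : R} (h : IsRegular R [z, u])
    (hm : ∀ x ∈ maximalIdeal R, ∃ a b, x * x = z * a + u * b) : ringKrullDim R = 2 := by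
  rw [← ringKrullDim_add_length_eq_ringKrullDim_of_isRegular _ h]
  have hne : Ideal.ofList [z, u] ≠ ⊤ := by
    have := h.2
    simpa using this.symm
  have : Nontrivial (R ⧸ Ideal.ofList [z, u]) := Ideal.Quotient.nontrivial_iff.mpr hne
  have : IsLocalRing (R ⧸ Ideal.ofList [z, u]) :=
    .of_surjective' _ Ideal.Quotient.mk_surjective
  have h0 : Ring.KrullDimLE 0 (R ⧸ Ideal.ofList [z, u]) := by
    rw [Ring.krullDimLE_zero_iff]
    intro p hp
    have hp' : (p.comap (Ideal.Quotient.mk _)).IsMaximal := by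
      have hle : maximalIdeal R ≤ p.comap (Ideal.Quotient.mk _) := by
        intro x hx
        obtain ⟨a, b, hab⟩ := hm x hx
        have : Ideal.Quotient.mk (Ideal.ofList [z, u]) (x * x) = 0 := by
          rw [Ideal.Quotient.eq_zero_iff_mem, hab]
          exact Ideal.add_mem _ (Ideal.mul_mem_right _ _ (Ideal.subset_span (by simp)))
            (Ideal.mul_mem_right _ _ (Ideal.subset_span (by simp)))
        rw [map_mul] at this
        exact (hp.mem_or_mem (this ▸ p.zero_mem)).elim id id
      rw [← (maximalIdeal.isMaximal R).eq_of_le (Ideal.IsPrime.ne_top inferInstance) hle]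
      infer_instance
    rw [← Ideal.map_comap_of_surjective _ Ideal.Quotient.mk_surjective p]
    exact Ideal.IsMaximal.map_of_surjective_of_ker_le Ideal.Quotient.mk_surjective
      (Ideal.ker_le_comap _)
  rw [ringKrullDimZero_iff_ringKrullDim_eq_zero.mp h0]
  simp

lemma reg_of_mcm [IsDomain R] (hd : ringKrullDim R = 2) {a b : R} (h : IsRegular M [a, b])
    {x : R} (hx : x ≠ 0) (hxm : x ∈ maximalIdeal R) : IsSMulRegular M x := by
  obtain ⟨ha, hb⟩ := (wreg_pair a b).mp h.1
  have ham : a ∈ maximalIdeal R := by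
    by_contra hh
    have : IsUnit a := by simpa using hh
    exact h.2 (by simp [Ideal.span_singleton_eq_top.mpr this])
  have hbm : b ∈ maximalIdeal R := by
    by_contra hh
    have : IsUnit b := by simpa using hh
    exact h.2 (by simp [Ideal.span_singleton_eq_top.mpr this])
  let N := LinearMap.ker (LinearMap.lsmul R M x)
  have hN : N = ⊥ := by
    by_contra hne
    have : Nontrivial N := Submodule.nontrivial_iff_ne_bot.mpr hne
    have hr : IsRegular N [a, b] := reg_pair ham hbm (ha.submodule N) (by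
      intro p q hpq
      obtain ⟨w, hw⟩ := hb p q (by simpa using congrArg Subtype.val hpq)
      refine ⟨⟨w, ?_⟩, Subtype.ext hw⟩
      have hp : x • (p : M) = 0 := p.2
      refine ha ?_
      change a • x • w = a • (0 : M)
      rw [smul_comm, ← hw, hp, smul_zero])
    have h1 := length_le_supp hr
    rw [Module.supportDim_eq_ringKrullDim_quotient_annihilator] at h1
    have hle : Ideal.span {x} ≤ Module.annihilator R N := by
      rw [Ideal.span_singleton_le_iff_mem, Module.mem_annihilator]
      intro p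
      exact Subtype.ext p.2
    have h2 := ringKrullDim_le_of_surjective (Ideal.Quotient.factor hle)
      (Ideal.Quotient.factor_surjective hle)
    have h3 := ringKrullDim_quotient_span_singleton_succ_eq_ringKrullDim_of_mem_nonZeroDivisors
      (mem_nonZeroDivisors_of_ne_zero hx) hxm
    rw [hd] at h3
    have h4 : ((2 : ℕ) : WithBot ℕ∞) + 1 ≤ 2 := by
      rw [← h3]
      gcongr
      exact h1.trans h2
    exact absurd h4 (by decide)
  intro p q hpq
  have : p - q ∈ N := by
    simp only [N, LinearMap.mem_ker, LinearMap.lsmul_apply, smul_sub]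
    exact sub_eq_zero.mpr hpq
  rw [hN] at this
  exact sub_eq_zero.mp this

end Reg

end Pool.Agent.H.MP_8741c9_al
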