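import Pool.Agent.H.MP_8741c9_al.A

namespace Pool.Agent.H.MP_8741c9_al

open IsLocalRing Polynomial

/-- A prime `g` of `R[X]` and `h` not divisible by `g` generate a nonzero constant. -/
lemma const_mem {R : Type} [CommRing R] [IsDomain R] {g h : R[X]} (hg : Prime g) (hh : ¬ g ∣ h) :
    ∃ c : R, c ≠ 0 ∧ C c ∈ Ideal.span {g, h} := by
  by_cases hd : ∃ c : R, c ≠ 0 ∧ g ∣ C c
  · obtain ⟨c, hc, a, ha⟩ := hd
    exact ⟨c, hc, ha ▸ Ideal.mul_mem_right _ _ (Ideal.subset_span (by simp))⟩
  let F := FractionRing R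
  let : Algebra R[X] F[X] := Polynomial.algebra R F
  have hl : IsLocalization ((nonZeroDivisors R).map C) F[X] :=
    Polynomial.isLocalization (nonZeroDivisors R) F
  have hp : (Ideal.span {g}).IsPrime := (Ideal.span_singleton_prime hg.ne_zero).mpr hg
  have hdis : Disjoint (((nonZeroDivisors R).map C : Submonoid R[X]) : Set R[X])
      (Ideal.span {g} : Ideal R[X]) := by
    rw [Set.disjoint_left]
    rintro _ ⟨c, hc, rfl⟩ hm
    exact hd ⟨c, nonZeroDivisors.ne_zero hc, Ideal.mem_span_singleton.mp hm⟩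
  have hP := IsLocalization.isPrime_of_isPrime_disjoint _ F[X] _ hp hdis
  have hU := IsLocalization.under_map_of_isPrime_disjoint _ F[X] hp hdis
  have hne : (Ideal.span {g}).map (algebraMap R[X] F[X]) ≠ ⊥ := by
    intro h0
    have hinj : Function.Injective (algebraMap R[X] F[X]) :=
      Polynomial.map_injective _ (IsFractionRing.injective R F)
    rw [Ideal.map_eq_bot_iff_of_injective hinj, Ideal.span_singleton_eq_bot] at h0
    exact hg.ne_zero h0
  have hM := hP.isMaximal hne
  have hT : (Ideal.span {g, h}).map (algebraMap R[X] F[X]) = ⊤ := by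
    by_contra hT
    have := hM.eq_of_le hT (Ideal.map_mono (Ideal.span_mono (by simp)))
    have h2 : h ∈ ((Ideal.span {g}).map (algebraMap R[X] F[X])).under R[X] := by
      rw [this]
      exact Ideal.mem_map_of_mem _ (Ideal.subset_span (by simp))
    rw [hU] at h2
    exact hh (Ideal.mem_span_singleton.mp h2)
  by_contra! hc
  have hdis2 : Disjoint (((nonZeroDivisors R).map C : Submonoid R[X]) : Set R[X])
      (Ideal.span {g, h} : Ideal R[X]) := by
    rw [Set.disjoint_left]
    rintro _ ⟨c, hc', rfl⟩ hm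
    exact hc c (nonZeroDivisors.ne_zero hc') hm
  exact (IsLocalization.map_algebraMap_ne_top_iff_disjoint _ F[X] _).mpr hdis2 hT

/-- Flatness of `B ⊆ S` when `S = B + z S` and `z S ∩ B = z B`. -/
lemma flat_of_dense {S : Type} [CommRing S] [IsDomain S] [IsNoetherianRing S] [IsLocalRing S]
    (B : Subring S) [IsNoetherianRing B] (z : B) (hz : (z : S) ∈ maximalIdeal S)
    (h1 : ∀ (n : ℕ) (x : S), ∃ b : B, ∃ y : S, x = b + z ^ n * y)
    (h2 : ∀ (n : ℕ) (y : S), (z : S) ^ n * y ∈ B → y ∈ B) : Module.Flat B S := by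
  classical
  refine Module.Flat.of_forall_isTrivialRelation fun {l f x} hfx => ?_
  let φ : (Fin l → B) →ₗ[B] B := Fintype.linearCombination B f
  obtain ⟨k, hk⟩ := (Ideal.span {z}).exists_pow_inf_eq_pow_smul (LinearMap.range φ)
  let W : Submodule S (Fin l → S) :=
    Submodule.span S ((fun c : Fin l → B => fun i => (c i : S)) '' LinearMap.ker φ)
  have key : ∀ n : ℕ, ∃ y : Fin l → S, x - (z : S) ^ n • y ∈ W := by
    intro n
    choose c x' hc using fun i => h1 (n + k) (x i)
    have e1 : ((φ c : B) : S) = (z : S) ^ (n + k) * (-∑ i, f i * x' i) := by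
      have : ∑ i, (f i : S) * x i = 0 := hfx
      simp only [hc, mul_add, Finset.sum_add_distrib] at this
      simp only [φ, Fintype.linearCombination_apply, smul_eq_mul, AddSubmonoidClass.coe_finset_sum,
        MulMemClass.coe_mul, mul_neg, Finset.mul_sum]
      rw [eq_neg_iff_add_eq_zero, ← this]
      congr 1 <;> exact Finset.sum_congr rfl fun i _ => by ring
    have e2 := h2 (n + k) _ (e1 ▸ (φ c).2)
    have e3 : φ c ∈ (Ideal.span {z} ^ (n + k) • ⊤ ⊓ LinearMap.range φ : Submodule B B) := by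
      refine ⟨?_, c, rfl⟩
      have : φ c = z ^ (n + k) • (⟨_, e2⟩ : B) := Subtype.ext (by simpa using e1)
      rw [this]
      exact Submodule.smul_mem_smul (Ideal.pow_mem_pow (Ideal.mem_span_singleton_self z) _) trivial
    rw [hk _ (by omega), Nat.add_sub_cancel, Ideal.span_singleton_pow,
      Submodule.ideal_span_singleton_smul, Submodule.mem_smul_pointwise_iff_exists] at e3
    obtain ⟨_, ⟨-, c', rfl⟩, e4⟩ := e3
    refine ⟨fun i => c' i + z ^ k * x' i, Submodule.subset_span ⟨c - z ^ n • c', ?_, ?_⟩⟩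
    · simp only [SetLike.mem_coe, LinearMap.mem_ker, map_sub, map_smul, e4, sub_self]
    · funext i
      simp only [Pi.sub_apply, Pi.smul_apply, smul_eq_mul, hc i]
      push_cast
      ring
  have hxW : x ∈ W := by
    rw [← Submodule.Quotient.mk_eq_zero, ← Submodule.mem_bot S,
      ← (maximalIdeal S).iInf_pow_smul_eq_bot_of_isLocalRing (maximalIdeal.isMaximal S).ne_top,
      Submodule.mem_iInf]
    intro n
    obtain ⟨y, hy⟩ := key n
    rw [(Submodule.Quotient.eq W).mpr hy, Submodule.Quotient.mk_smul]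
    exact Submodule.smul_mem_smul (Ideal.pow_mem_pow hz _) trivial
  obtain ⟨m, s, v, hv⟩ := Submodule.mem_span_set'.mp hxW
  choose a ha ha' using fun j => (v j).2
  refine ⟨m, fun i j => a j i, s, fun i => ?_, fun j => ?_⟩
  · rw [← hv, Finset.sum_apply]
    refine Finset.sum_congr rfl fun j _ => ?_
    rw [← ha' j, Pi.smul_apply, smul_eq_mul, mul_comm]
    rfl
  · have : φ (a j) = 0 := ha j
    simpa [φ, Fintype.linearCombination_apply, mul_comm] using this

/-- An idempotent matrix with free image factors through an identity matrix. -/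
lemma idem_factor {R : Type} [CommRing R] [IsNoetherianRing R] {r : ℕ}
    (P : Matrix (Fin r) (Fin r) R) (hP : P * P = P)
    [Module.Free R (LinearMap.range P.mulVecLin)] :
    ∃ (n : ℕ) (E : Matrix (Fin r) (Fin n) R) (F : Matrix (Fin n) (Fin r) R),
      E * F = P ∧ F * E = 1 := by
  classical
  let N := LinearMap.range P.mulVecLin
  obtain ⟨n, ⟨e⟩⟩ : ∃ n, Nonempty (N ≃ₗ[R] (Fin n → R)) :=
    ⟨_, ⟨((Module.Free.chooseBasis R N).reindex (Fintype.equivFin _)).equivFun⟩⟩
  let f : (Fin r → R) →ₗ[R] (Fin n → R) := e.toLinearMap ∘ₗ P.mulVecLin.rangeRestrict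
  let g : (Fin n → R) →ₗ[R] (Fin r → R) := N.subtype ∘ₗ e.symm.toLinearMap
  refine ⟨n, LinearMap.toMatrix' g, LinearMap.toMatrix' f, ?_, ?_⟩
  · rw [← LinearMap.toMatrix'_comp, ← Matrix.toLin'.symm_apply_apply P]
    congr 1
    refine LinearMap.ext fun x => ?_
    simp [f, g]
  · rw [← LinearMap.toMatrix'_comp, ← LinearMap.toMatrix'_id]
    congr 1
    refine LinearMap.ext fun x => ?_
    obtain ⟨⟨_, y, rfl⟩, rfl⟩ := e.surjective x
    simp only [f, g, LinearMap.comp_apply, LinearEquiv.coe_coe, LinearEquiv.symm_apply_apply,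
      Submodule.subtype_apply, LinearMap.id_apply]
    congr 1
    apply Subtype.ext
    simp [hP]

end Pool.Agent.H.MP_8741c9_al
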