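import Pool.Agent.H.MP_8741c9_al.B

set_option linter.unusedSectionVars false

namespace Pool.Agent.H.MP_8741c9_al

open IsLocalRing RingTheory.Sequence

/-- Abstract data: normalisation `T` of a surface with a line of nodes. -/
structure Data (T V : Type) [CommRing T] [CommRing V] where
  u : T
  s : T
  w : V
  e0 : T →+* V
  e1 : T →+* V
  ι : V →+* T
  hs : s * s = s + u
  e0s : e0 s = 0
  e1s : e1 s = 1
  e0i : ∀ a, e0 (ι a) = a
  e1i : ∀ a, e1 (ι a) = a
  ker : ∀ x, e0 x = 0 → e1 x = 0 → u ∣ x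
  unit : ∀ x, IsUnit (e0 x) → IsUnit (e1 x) → IsUnit x
  hw : Irreducible w
  pz : Prime (ι w)
  zu : ¬ ι w ∣ u
  dv : ∀ x, ¬ ι w ∣ x → ∃ (n : ℕ) (y c : T), u ^ n = x * y + ι w * c

namespace Data

variable {T V : Type} [CommRing T] [IsDomain T] [CommRing V] [IsDomain V]
  [IsDiscreteValuationRing V] (D : Data T V)

abbrev z : T := D.ι D.w
abbrev S : Subring T := RingHom.eqLocus D.e0 D.e1

lemma mem_S {x : T} : x ∈ D.S ↔ D.e0 x = D.e1 x := Iff.rfl

lemma e0u : D.e0 D.u = 0 := by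
  have := congrArg D.e0 D.hs
  simpa [D.e0s] using this.symm

lemma e1u : D.e1 D.u = 0 := by
  have := congrArg D.e1 D.hs
  simpa [D.e1s] using this.symm

lemma u_ne : D.u ≠ 0 := fun h => D.zu (h ▸ dvd_zero _)

lemma decomp (x : T) : ∃ t, x = D.ι (D.e0 x) + (D.ι (D.e1 x) - D.ι (D.e0 x)) * D.s + D.u * t := by
  obtain ⟨t, ht⟩ := D.ker (x - (D.ι (D.e0 x) + (D.ι (D.e1 x) - D.ι (D.e0 x)) * D.s))
    (by simp [D.e0i, D.e0s]) (by simp [D.e1i, D.e1s])
  exact ⟨t, by rw [← ht]; ring⟩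

lemma umem (t : T) : D.u * t ∈ D.S := by simp [mem_S, D.e0u, D.e1u]

def iS (a : V) : D.S := ⟨D.ι a, by simp [mem_S, D.e0i, D.e1i]⟩
def uS : D.S := ⟨D.u, by simpa using D.umem 1⟩
def vS : D.S := ⟨D.u * D.s, D.umem _⟩
def zS : D.S := D.iS D.w

@[simp] lemma coe_iS (a : V) : (D.iS a : T) = D.ι a := rfl
@[simp] lemma coe_uS : (D.uS : T) = D.u := rfl
@[simp] lemma coe_vS : (D.vS : T) = D.u * D.s := rfl
@[simp] lemma coe_zS : (D.zS : T) = D.z := rfl

lemma vS_sq : D.vS * D.vS = D.uS * (D.vS + D.uS * D.uS) := by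
  apply Subtype.ext
  push_cast
  simp only [coe_uS, coe_vS]
  linear_combination D.u ^ 2 * D.hs

lemma w_dvd {a : V} : D.w ∣ a ↔ ¬ IsUnit a := by
  rw [← Ideal.mem_span_singleton,
    ← (IsDiscreteValuationRing.irreducible_iff_uniformizer D.w).mp D.hw]
  simp

lemma unitS (x : D.S) (h : IsUnit (D.e0 x)) : IsUnit x := by
  have hx : D.e0 x = D.e1 x := x.2
  obtain ⟨y, hy⟩ := (D.unit x h (hx ▸ h)).exists_right_inv
  have h0 := congrArg D.e0 hy
  have h1 := congrArg D.e1 hy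
  simp only [map_mul, map_one] at h0 h1
  refine IsUnit.of_mul_eq_one ⟨y, ?_⟩ (Subtype.ext hy)
  exact h.mul_left_cancel (by rw [h0, hx, h1])

instance : IsLocalRing D.S := by
  refine .of_isUnit_or_isUnit_one_sub_self fun a => ?_
  rcases isUnit_or_isUnit_one_sub_self (D.e0 a) with h | h
  · exact .inl (D.unitS a h)
  · exact .inr (D.unitS _ (by simpa using h))

lemma mem_m {x : D.S} : x ∈ maximalIdeal D.S ↔ D.w ∣ D.e0 x := by
  rw [D.w_dvd, mem_maximalIdeal, mem_nonunits_iff, not_iff_not]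
  exact ⟨fun h => (h.map D.S.subtype).map D.e0, D.unitS x⟩

lemma zS_m : D.zS ∈ maximalIdeal D.S := by rw [mem_m]; simp [D.e0i]
lemma uS_m : D.uS ∈ maximalIdeal D.S := by rw [mem_m]; simp [D.e0u]
lemma vS_m : D.vS ∈ maximalIdeal D.S := by rw [mem_m]; simp [D.e0u]

lemma T_decomp (t : T) : ∃ a b : D.S, t = a + b * D.s := by
  obtain ⟨t', ht⟩ := D.decomp t
  refine ⟨D.iS (D.e0 t) + ⟨_, D.umem t'⟩, D.iS (D.e1 t) - D.iS (D.e0 t), ?_⟩
  push_cast
  simp only [coe_iS]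
  linear_combination ht

lemma S_decomp (x : D.S) : ∃ b c : D.S, x = D.iS (D.e0 x) + D.uS * b + D.vS * c := by
  obtain ⟨t, ht⟩ := D.decomp x
  obtain ⟨a, b, rfl⟩ := D.T_decomp t
  refine ⟨a, b, Subtype.ext ?_⟩
  have hx : D.e0 x = D.e1 x := x.2
  rw [← hx] at ht
  push_cast
  simp only [coe_iS, coe_uS, coe_vS]
  linear_combination ht

lemma m_decomp {x : D.S} (hx : x ∈ maximalIdeal D.S) :
    ∃ a b c : D.S, x = D.zS * a + D.uS * b + D.vS * c := by
  obtain ⟨a, ha⟩ := D.mem_m.mp hx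
  obtain ⟨b, c, h⟩ := D.S_decomp x
  refine ⟨D.iS a, b, c, h.trans ?_⟩
  congr 2
  apply Subtype.ext
  simp [ha]

lemma m_sq {x y : D.S} (hx : x ∈ maximalIdeal D.S) (hy : y ∈ maximalIdeal D.S) :
    ∃ a b : D.S, x * y = D.zS * a + D.uS * b := by
  obtain ⟨a, b, c, rfl⟩ := D.m_decomp hx
  obtain ⟨a', b', c', rfl⟩ := D.m_decomp hy
  exact ⟨a * (D.zS * a' + D.uS * b' + D.vS * c') + D.vS * c * a',
    b * (D.zS * a' + D.uS * b' + D.vS * c') + D.vS * c * b' + c * c' * (D.vS + D.uS * D.uS),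
    by linear_combination c * c' * D.vS_sq⟩

lemma zdiv {t : T} (n : ℕ) (h : D.z ^ n * t ∈ D.S) : t ∈ D.S := by
  rw [mem_S] at h ⊢
  simp only [map_mul, map_pow, D.e0i, D.e1i] at h
  exact mul_left_cancel₀ (pow_ne_zero _ D.hw.ne_zero) h

lemma zS_dvd {x : D.S} : D.zS ∣ x ↔ D.z ∣ x := by
  constructor
  · rintro ⟨y, rfl⟩
    exact ⟨y, rfl⟩
  · rintro ⟨y, hy⟩
    exact ⟨⟨y, D.zdiv 1 (by rw [pow_one, ← hy]; exact x.2)⟩, Subtype.ext hy⟩

lemma primeS : Prime D.zS := by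
  refine ⟨fun h => D.pz.ne_zero (congrArg Subtype.val h), by simpa using D.zS_m, fun a b h => ?_⟩
  simp only [zS_dvd] at h ⊢
  exact D.pz.dvd_or_dvd h

lemma zuS : ¬ D.zS ∣ D.uS := by rw [zS_dvd]; exact D.zu

lemma jac {x : T} (h0 : D.w ∣ D.e0 x) (h1 : D.w ∣ D.e1 x) (y : T) : IsUnit (x * y + 1) := by
  have key : ∀ a b : V, D.w ∣ a → IsUnit (a * b + 1) := by
    intro a b ha
    by_contra h
    rw [← D.w_dvd, dvd_add_right (ha.mul_right b)] at h
    exact D.hw.not_isUnit (isUnit_of_dvd_one h)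
  exact D.unit _ (by simpa using key _ _ h0) (by simpa using key _ _ h1)

lemma pid : IsPrincipalIdealRing (T ⧸ Ideal.span {D.z}) := by
  refine IsPrincipalIdealRing.of_prime_ne_bot fun P hP hne => ?_
  let π := Ideal.Quotient.mk (Ideal.span {D.z})
  have hz : π D.z = 0 := Ideal.Quotient.eq_zero_iff_mem.mpr (Ideal.mem_span_singleton_self _)
  have key : ∀ (q : T) (e : T →+* V), π q ∈ P → (∀ c, ∃ t, c = D.ι (e c) + q * t) →
      P.IsPrincipal := by
    intro q e hq h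
    refine ⟨π q, le_antisymm (fun c hc => ?_) (by simpa using hq)⟩
    obtain ⟨c, rfl⟩ := Ideal.Quotient.mk_surjective c
    obtain ⟨t, ht⟩ := h c
    have h1 : π c = π (D.ι (e c)) + π q * π t := by rw [← map_mul, ← map_add, ← ht]
    have h2 : π (D.ι (e c)) ∈ P := by
      rw [← sub_eq_iff_eq_add] at h1
      rw [← h1]
      exact P.sub_mem hc (P.mul_mem_right _ hq)
    obtain ⟨a, ha⟩ : D.w ∣ e c := D.w_dvd.mpr fun hu =>
      hP.ne_top (P.eq_top_of_isUnit_mem h2 ((hu.map D.ι).map π))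
    change π c ∈ _
    rw [h1, ha, map_mul, map_mul, hz, zero_mul, zero_add]
    exact Ideal.mul_mem_right _ _ (Ideal.mem_span_singleton_self _)
  obtain ⟨x, hx, hx0⟩ := Submodule.exists_mem_ne_zero_of_ne_bot hne
  obtain ⟨x, rfl⟩ := Ideal.Quotient.mk_surjective x
  obtain ⟨n, y, c, h⟩ := D.dv x fun hd => hx0
    (Ideal.Quotient.eq_zero_iff_mem.mpr (Ideal.mem_span_singleton.mpr hd))
  have hu : π D.u ∈ P := by
    refine hP.mem_of_pow_mem n ?_
    rw [← map_pow, h, map_add, map_mul, map_mul, hz, zero_mul, add_zero]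
    exact P.mul_mem_right _ hx
  have hu' : D.u = D.s * (D.s - 1) := by linear_combination -D.hs
  rw [hu', map_mul] at hu
  rcases hP.mem_or_mem hu with h | h
  · refine key _ D.e0 h fun c => ?_
    obtain ⟨t, ht⟩ := D.decomp c
    exact ⟨D.ι (D.e1 c) - D.ι (D.e0 c) + (D.s - 1) * t, by linear_combination ht + t * hu'⟩
  · refine key _ D.e1 h fun c => ?_
    obtain ⟨t, ht⟩ := D.decomp c
    exact ⟨D.ι (D.e1 c) - D.ι (D.e0 c) + D.s * t, by linear_combination ht + t * hu'⟩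

lemma freeT [IsNoetherianRing T] (F : Type) [AddCommGroup F] [Module T F] [Module.Finite T F]
    (hz : IsSMulRegular F D.z) (hu : ∀ x y : F, D.u • x = D.z • y → ∃ c, x = D.z • c) :
    Module.Free T F := by
  have := Module.finitePresentation_of_finite T F
  have := D.pid
  have : (Ideal.span {D.z}).IsPrime := (Ideal.span_singleton_prime D.pz.ne_zero).mpr D.pz
  rw [← Module.free_quotSMulTop_iff_free T F
    (Ideal.mem_jacobson_bot.mpr (D.jac (by simp [D.e0i]) (by simp [D.e1i]))) hz]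
  have := Module.Finite.of_restrictScalars_finite T (T ⧸ Ideal.span {D.z}) (QuotSMulTop D.z F)
  have hr := (quot_reg_iff D.z D.u).mpr hu
  have : Module.IsTorsionFree (T ⧸ Ideal.span {D.z}) (QuotSMulTop D.z F) := by
    refine .of_smul_eq_zero fun r m hm => ?_
    obtain ⟨r, rfl⟩ := Ideal.Quotient.mk_surjective r
    by_cases hd : D.z ∣ r
    · exact .inl (Ideal.Quotient.eq_zero_iff_mem.mpr (Ideal.mem_span_singleton.mpr hd))
    obtain ⟨n, y, c, h⟩ := D.dv r hd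
    refine .inr ((hr.pow n).right_eq_zero_of_smul ?_)
    have hm' : r • m = 0 := hm
    have hz' : D.z • m = 0 := Module.mem_annihilator.mp (QuotSMulTop.mem_annihilator F D.z) m
    rw [h, add_smul, mul_comm r, mul_comm _ c, mul_smul, mul_smul, hm', hz']
    simp
  infer_instance

lemma regS [IsNoetherianRing D.S] : IsRegular D.S [D.zS, D.uS] :=
  reg_pair D.zS_m D.uS_m (fun a b h => mul_left_cancel₀ D.primeS.ne_zero h) fun x y h =>
    (D.primeS.dvd_or_dvd ⟨y, h⟩).resolve_left D.zuS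

lemma dimS [IsNoetherianRing D.S] : ringKrullDim D.S = 2 :=
  dim_two D.regS fun _ hx => D.m_sq hx hx

end Data

end Pool.Agent.H.MP_8741c9_al
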