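import Pool.Agent.H.MP_8741c9_al.C

set_option linter.unusedSectionVars false

namespace Pool.Agent.H.MP_8741c9_al

open IsLocalRing RingTheory.Sequence

lemma split {V : Type} [CommRing V] [IsDomain V] [IsDiscreteValuationRing V] {w : V}
    (hw : Irreducible w) {r : ℕ} (i1 : Fin r) (W : Submodule V ((Fin r → V) × (Fin r → V)))
    (h0 : ∀ y, (0, y) ∈ W → y = 0) (h1 : ∀ y, (y, 0) ∈ W → y = 0)
    (hs : ∀ p, w • p ∈ W → p ∈ W) :
    ∃ x0 x1 φ0 φ1 : Fin r → V, φ0 ⬝ᵥ x0 = 1 ∧ φ1 ⬝ᵥ x1 = 1 ∧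
      ∀ p ∈ W, ((φ0 ⬝ᵥ p.1) • x0, (φ1 ⬝ᵥ p.2) • x1) ∈ W := by
  classical
  by_cases hW : W = ⊥
  · refine ⟨Pi.single i1 1, Pi.single i1 1, Pi.single i1 1, Pi.single i1 1, by simp, by simp, ?_⟩
    intro p hp
    rw [hW, Submodule.mem_bot] at hp
    simp [hp, hW]
  have hs' : ∀ (n : ℕ) p, w ^ n • p ∈ W → p ∈ W := by
    intro n
    induction n with
    | zero => simp
    | succ n ih => intro p hp; exact ih p (hs _ (by rwa [smul_smul, ← pow_succ']))
  let W0 : Submodule V (Fin r → V) :=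
    { carrier := {y | ∃ (n : ℕ) (y1 : Fin r → V), (w ^ n • y, y1) ∈ W}
      add_mem' := by
        rintro a b ⟨n, a1, ha⟩ ⟨m, b1, hb⟩
        refine ⟨n + m, w ^ m • a1 + w ^ n • b1, ?_⟩
        convert W.add_mem (W.smul_mem (w ^ m) ha) (W.smul_mem (w ^ n) hb) using 1
        simp [smul_smul, pow_add, mul_comm]
      zero_mem' := ⟨0, 0, by rw [smul_zero]; exact W.zero_mem⟩
      smul_mem' := by
        rintro c a ⟨n, a1, ha⟩
        refine ⟨n, c • a1, ?_⟩
        convert W.smul_mem c ha using 1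
        simp [smul_smul, mul_comm] }
  have : Module.IsTorsionFree V ((Fin r → V) ⧸ W0) := by
    refine .of_smul_eq_zero fun c q hq => or_iff_not_imp_left.mpr fun hc => ?_
    obtain ⟨y, rfl⟩ := Submodule.Quotient.mk_surjective _ q
    rw [← Submodule.Quotient.mk_smul, Submodule.Quotient.mk_eq_zero] at hq
    obtain ⟨n, y1, hy⟩ := hq
    obtain ⟨m, c', hc'⟩ := IsDiscreteValuationRing.associated_pow_irreducible hc hw
    refine (Submodule.Quotient.mk_eq_zero _).mpr ⟨n + m, (c' : V) • y1, ?_⟩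
    convert W.smul_mem (c' : V) hy using 1
    simp only [Prod.smul_mk, smul_smul, pow_add, ← hc']
    congr 2
    ring
  obtain ⟨g, hg⟩ := W0.mkQ.exists_rightInverse_of_surjective (Submodule.range_mkQ _)
  let ρ : (Fin r → V) →ₗ[V] (Fin r → V) := LinearMap.id - g ∘ₗ W0.mkQ
  have ρ1 : ∀ y, ρ y ∈ W0 := by
    intro y
    rw [← Submodule.Quotient.mk_eq_zero]
    have := LinearMap.congr_fun hg (W0.mkQ y)
    simp only [LinearMap.comp_apply, Submodule.mkQ_apply, LinearMap.id_apply] at this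
    simp [ρ, this]
  have ρ2 : ∀ y ∈ W0, ρ y = y := by
    intro y hy
    simp [ρ, (Submodule.Quotient.mk_eq_zero _).mpr hy]
  choose nn yy hyy using fun i => ρ1 (Pi.single i 1)
  let n := ∑ i, nn i
  let Y : Fin r → Fin r → V := fun i => w ^ (n - nn i) • yy i
  let Tm : (Fin r → V) →ₗ[V] (Fin r → V) := Fintype.linearCombination V Y
  have t1 : ∀ y, (w ^ n • ρ y, Tm y) ∈ W := by
    intro y
    have : (w ^ n • ρ y, Tm y) =
        ∑ i, (y i * w ^ (n - nn i)) • (w ^ nn i • ρ (Pi.single i 1), yy i) := by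
      ext1
      · conv_lhs => rw [pi_eq_sum_univ' y]
        simp only [map_sum, map_smul, Finset.smul_sum, Prod.fst_sum, Prod.smul_mk, smul_smul]
        refine Finset.sum_congr rfl fun i _ => ?_
        have : nn i ≤ n := Finset.single_le_sum (f := nn) (by simp) (Finset.mem_univ i)
        rw [mul_assoc, ← pow_add, Nat.sub_add_cancel this, mul_comm]
      · simp [Tm, Y, Fintype.linearCombination_apply, Prod.snd_sum, smul_smul]
    rw [this]
    exact W.sum_mem fun i _ => W.smul_mem _ (hyy i)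
  have t2 : ∀ p ∈ W, Tm p.1 = w ^ n • p.2 := by
    intro p hp
    rw [← sub_eq_zero]
    refine h0 _ ?_
    convert W.sub_mem (t1 p.1) (W.smul_mem (w ^ n) hp) using 1
    rw [ρ2 _ ⟨0, p.2, by simpa using hp⟩]
    ext1 <;> simp
  have t3 : ∀ y, Tm (ρ y) = Tm y := by
    intro y
    rw [← sub_eq_zero]
    refine h0 _ ?_
    convert W.sub_mem (t1 (ρ y)) (t1 y) using 1
    rw [ρ2 _ (ρ1 y)]
    simp
  have : Nonempty (Fin r × Fin r) := ⟨(i1, i1)⟩
  obtain ⟨⟨i0, j0⟩, hmin⟩ := Finite.exists_min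
    fun ij : Fin r × Fin r => IsDiscreteValuationRing.addVal V (Y ij.1 ij.2)
  choose c hc using fun i j => IsDiscreteValuationRing.addVal_le_iff_dvd.mp (hmin (i, j))
  set a := Y i0 j0 with ha
  have ha0 : a ≠ 0 := by
    intro h
    refine hW (eq_bot_iff.mpr fun p hp => ?_)
    have hY : Y = 0 := by funext i j; simpa [h] using hc i j
    have e2 : p.2 = 0 := by
      have := t2 p hp
      simp only [Tm, hY, Fintype.linearCombination_apply, Pi.zero_apply, smul_zero,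
        Finset.sum_const_zero] at this
      exact (smul_eq_zero.mp this.symm).resolve_left (pow_ne_zero _ hw.ne_zero)
    have e1 := h1 p.1 (by rw [← e2]; exact hp)
    exact Prod.ext e1 e2
  have t4 : ∀ y, Tm y j0 = a * ((fun i => c i j0) ⬝ᵥ y) := by
    intro y
    simp only [Tm, Fintype.linearCombination_apply, Finset.sum_apply, Pi.smul_apply, smul_eq_mul,
      dotProduct, Finset.mul_sum]
    exact Finset.sum_congr rfl fun i _ => by rw [hc i j0]; ring
  have t5 : Tm (Pi.single i0 1) = Y i0 := by simp [Tm]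
  have c1 : c i0 j0 = 1 := mul_left_cancel₀ ha0 (by rw [← hc i0 j0, mul_one])
  refine ⟨ρ (Pi.single i0 1), c i0, fun i => c i j0, Pi.single j0 1, ?_, by simp [c1], ?_⟩
  · refine mul_left_cancel₀ ha0 ?_
    rw [← t4, t3, t5, mul_one]
  · intro p hp
    refine hs' n _ ?_
    convert W.smul_mem ((fun i => c i j0) ⬝ᵥ p.1) (t1 (Pi.single i0 1)) using 1
    ext1
    · simp [smul_smul, mul_comm]
    · have := congrFun (t2 p hp) j0
      rw [t4] at this
      funext j
      simp only [Prod.smul_mk, Pi.smul_apply, smul_eq_mul, t5, single_dotProduct, one_mul] at this ⊢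
      rw [hc i0 j, ← mul_assoc, ← this]
      ring

namespace Data

variable {T V : Type} [CommRing T] [IsDomain T] [CommRing V] [IsDomain V]
  [IsDiscreteValuationRing V] (D : Data T V)

lemma lattice {r : ℕ} (N : Submodule D.S (Fin r → T)) (hu : ∀ y, D.u • y ∈ N)
    (h0 : ∀ y ∈ N, D.e0 ∘ y = 0 → D.e1 ∘ y = 0) (h1 : ∀ y ∈ N, D.e1 ∘ y = 0 → D.e0 ∘ y = 0)
    (hs : ∀ y, D.z • y ∈ N → y ∈ N)
    (hi : ∀ e : N →ₗ[D.S] N, e ∘ₗ e = e → e = 0 ∨ e = LinearMap.id) :
    ∃ a b c : N, ∀ m : N, ∃ p q t : D.S, m = p • a + q • b + t • c := by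
  classical
  rcases r with _ | r
  · exact ⟨0, 0, 0, fun m => ⟨0, 0, 0, Subsingleton.elim _ _⟩⟩
  have hk : ∀ y y', y' ∈ N → D.e0 ∘ y = D.e0 ∘ y' → D.e1 ∘ y = D.e1 ∘ y' → y ∈ N := by
    intro y y' hy' a0 a1
    choose t ht using fun i => D.ker (y i - y' i)
      (by rw [map_sub, sub_eq_zero]; exact congrFun a0 i)
      (by rw [map_sub, sub_eq_zero]; exact congrFun a1 i)
    have : y = y' + D.u • t := by
      funext i
      simp [← ht i]
    rw [this]
    exact N.add_mem hy' (hu t)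
  let lf : (Fin (r + 1) → V) → (Fin (r + 1) → V) → Fin (r + 1) → T :=
    fun a b i => D.ι (a i) + (D.ι (b i) - D.ι (a i)) * D.s
  have l0 : ∀ a b, D.e0 ∘ lf a b = a := fun a b => by funext i; simp [lf, D.e0i, D.e0s]
  have l1 : ∀ a b, D.e1 ∘ lf a b = b := fun a b => by funext i; simp [lf, D.e1i, D.e1s]
  let W : Submodule V ((Fin (r + 1) → V) × (Fin (r + 1) → V)) :=
    { carrier := {p | ∃ y ∈ N, D.e0 ∘ y = p.1 ∧ D.e1 ∘ y = p.2}
      add_mem' := by
        rintro a b ⟨y, hy, a0, a1⟩ ⟨y', hy', b0, b1⟩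
        refine ⟨y + y', N.add_mem hy hy', ?_, ?_⟩ <;> funext i
        · simp [← a0, ← b0]
        · simp [← a1, ← b1]
      zero_mem' := ⟨0, N.zero_mem, by funext i; simp, by funext i; simp⟩
      smul_mem' := by
        rintro c a ⟨y, hy, a0, a1⟩
        refine ⟨D.iS c • y, N.smul_mem _ hy, ?_, ?_⟩ <;> funext i
        · simp [← a0, Subring.smul_def, D.e0i]
        · simp [← a1, Subring.smul_def, D.e1i] }
  obtain ⟨x0, x1, φ0, φ1, d0, d1, hW⟩ := split D.hw 0 W
    (by rintro y ⟨y', hy', a0, a1⟩; exact a1.symm.trans (h0 _ hy' a0))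
    (by rintro y ⟨y', hy', a0, a1⟩; exact a0.symm.trans (h1 _ hy' a1))
    (by
      rintro p ⟨y, hy, a0, a1⟩
      refine ⟨lf p.1 p.2, hs _ (hk _ y hy ?_ ?_), l0 _ _, l1 _ _⟩ <;> funext i
      · have := congrFun (l0 p.1 p.2) i
        simp only [Function.comp_apply] at this
        simpa [this, D.e0i] using (congrFun a0 i).symm
      · have := congrFun (l1 p.1 p.2) i
        simp only [Function.comp_apply] at this
        simpa [this, D.e1i] using (congrFun a1 i).symm)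
  set x := lf x0 x1
  have dd0 : D.e0 (lf φ0 φ1 ⬝ᵥ x) = 1 := by rw [RingHom.map_dotProduct, l0, l0, d0]
  have dd1 : D.e1 (lf φ0 φ1 ⬝ᵥ x) = 1 := by rw [RingHom.map_dotProduct, l1, l1, d1]
  obtain ⟨d, hd⟩ := (D.unit _ (dd0 ▸ isUnit_one) (dd1 ▸ isUnit_one)).exists_left_inv
  have d0' : D.e0 d = 1 := by simpa [dd0] using congrArg D.e0 hd
  have d1' : D.e1 d = 1 := by simpa [dd1] using congrArg D.e1 hd
  let ψ : (Fin (r + 1) → T) → T := fun y => d * (lf φ0 φ1 ⬝ᵥ y)
  have ψ0 : ∀ y, D.e0 (ψ y) = φ0 ⬝ᵥ (D.e0 ∘ y) := fun y => by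
    simp only [ψ, map_mul, d0', one_mul]; rw [RingHom.map_dotProduct, l0]
  have ψ1 : ∀ y, D.e1 (ψ y) = φ1 ⬝ᵥ (D.e1 ∘ y) := fun y => by
    simp only [ψ, map_mul, d1', one_mul]; rw [RingHom.map_dotProduct, l1]
  have ψs : ∀ (t : T) y, ψ (t • y) = t * ψ y := fun t y => by
    simp only [ψ, dotProduct_smul, smul_eq_mul]; ring
  have ψa : ∀ y y', ψ (y + y') = ψ y + ψ y' := fun y y' => by
    simp only [ψ, dotProduct_add]; ring
  have ψx : ψ x = 1 := hd
  have hE : ∀ y ∈ N, ψ y • x ∈ N := by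
    intro y hy
    obtain ⟨y', hy', a0, a1⟩ := hW (D.e0 ∘ y, D.e1 ∘ y) ⟨y, hy, rfl, rfl⟩
    refine hk _ y' hy' ?_ ?_ <;> funext i
    · have := congrFun (l0 x0 x1) i
      simp only [Function.comp_apply] at this
      simpa [ψ0, x, this] using (congrFun a0 i).symm
    · have := congrFun (l1 x0 x1) i
      simp only [Function.comp_apply] at this
      simpa [ψ1, x, this] using (congrFun a1 i).symm
  let E : N →ₗ[D.S] N :=
    { toFun := fun y => ⟨ψ y • x, hE y y.2⟩
      map_add' := fun y y' => Subtype.ext (by simp [ψa, add_smul])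
      map_smul' := fun c y => Subtype.ext (by simp [Subring.smul_def, ψs, mul_smul]) }
  have hx0 : x ≠ 0 := fun h => by simp [ψ, h] at ψx
  have hid : ∀ y ∈ N, ψ y • x = y := by
    rcases hi E (LinearMap.ext fun y => Subtype.ext (by simp [E, ψs, ψx])) with h | h
    · have := congrArg Subtype.val (LinearMap.congr_fun h ⟨_, hu x⟩)
      simp [E, ψs, ψx, hx0, D.u_ne] at this
    · exact fun y hy => congrArg Subtype.val (LinearMap.congr_fun h ⟨y, hy⟩)
  let I : Ideal V :=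
    { carrier := {a | ∃ y ∈ N, D.e0 (ψ y) = a}
      add_mem' := by
        rintro _ _ ⟨y, hy, rfl⟩ ⟨y', hy', rfl⟩
        exact ⟨y + y', N.add_mem hy hy', by rw [ψa, map_add]⟩
      zero_mem' := ⟨0, N.zero_mem, by simp [ψ]⟩
      smul_mem' := by
        rintro c _ ⟨y, hy, rfl⟩
        exact ⟨D.iS c • y, N.smul_mem _ hy, by simp [Subring.smul_def, ψs, D.e0i]⟩ }
  obtain ⟨g, hg⟩ := (IsPrincipalIdealRing.principal I).principal
  obtain ⟨y0, hy0, hg0⟩ : g ∈ I := hg ▸ Submodule.mem_span_singleton_self g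
  refine ⟨⟨y0, hy0⟩, ⟨_, hu x⟩, ⟨_, hu (D.s • x)⟩, fun ⟨y, hy⟩ => ?_⟩
  have hyI : D.e0 (ψ y) ∈ I := ⟨y, hy, rfl⟩
  rw [hg] at hyI
  obtain ⟨a, ha⟩ := Submodule.mem_span_singleton.mp hyI
  have hy' : y + D.iS (-a) • y0 ∈ N := N.add_mem hy (N.smul_mem _ hy0)
  set y' := y + D.iS (-a) • y0 with hy''
  have z0 : D.e0 (ψ y') = 0 := by
    rw [hy'', ψa, Subring.smul_def, ψs, map_add, ← ha, map_mul, hg0]
    simp [D.e0i]
  have z1 : D.e1 (ψ y') = 0 := by
    rw [ψ1, h0 _ hy', dotProduct_zero]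
    rw [← hid _ hy']
    funext i
    simp [z0]
  obtain ⟨t, ht⟩ := D.ker _ z0 z1
  obtain ⟨p, q, rfl⟩ := D.T_decomp t
  refine ⟨D.iS a, p, q, Subtype.ext ?_⟩
  have := hid _ hy'
  rw [ht, hy''] at this
  funext i
  have := congrFun this i
  simp only [Pi.smul_apply, smul_eq_mul, Pi.add_apply, Subring.smul_def, coe_iS, map_neg,
    Submodule.coe_add, Submodule.coe_smul_of_tower] at this ⊢
  linear_combination -this

end Data

end Pool.Agent.H.MP_8741c9_al
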