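import Pool.Agent.H.MP_8741c9_al.D

set_option linter.unusedSectionVars false

namespace Pool.Agent.H.MP_8741c9_al

open IsLocalRing RingTheory.Sequence

namespace Data

variable {T V : Type} [CommRing T] [IsDomain T] [CommRing V] [IsDomain V]
  [IsDiscreteValuationRing V] (D : Data T V)

def ut (t : T) : D.S := ⟨D.u * t, D.umem t⟩

@[simp] lemma coe_ut (t : T) : (D.ut t : T) = D.u * t := rfl

variable (M : Type) [AddCommGroup M] [Module D.S M]

/-- The largest `T`-submodule of `M`. -/
def Fm : Submodule D.S M where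
  carrier := {m | ∀ t : T, ∃ m', D.uS • m' = D.ut t • m}
  add_mem' := by
    intro a b ha hb t
    obtain ⟨a', ha'⟩ := ha t
    obtain ⟨b', hb'⟩ := hb t
    exact ⟨a' + b', by rw [smul_add, smul_add, ha', hb']⟩
  zero_mem' := fun t => ⟨0, by simp⟩
  smul_mem' := by
    intro c a ha t
    obtain ⟨a', ha'⟩ := ha t
    exact ⟨c • a', by rw [smul_comm, ha', smul_comm]⟩

variable {M}

noncomputable def act (hu : IsSMulRegular M D.uS) (t : T) (m : D.Fm M) : D.Fm M :=
  ⟨(m.2 t).choose, fun t' => ⟨(m.2 (t * t')).choose, hu (by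
    change D.uS • D.uS • _ = D.uS • D.ut t' • _
    rw [(m.2 (t * t')).choose_spec, smul_comm D.uS (D.ut t'), (m.2 t).choose_spec, smul_smul,
      smul_smul]
    congr 1
    apply Subtype.ext
    simp only [MulMemClass.coe_mul, coe_ut, coe_uS]
    ring)⟩⟩

lemma act_spec (hu : IsSMulRegular M D.uS) (t : T) (m : D.Fm M) :
    D.uS • (D.act hu t m : M) = D.ut t • (m : M) := (m.2 t).choose_spec

@[reducible] noncomputable def modF (hu : IsSMulRegular M D.uS) : Module T (D.Fm M) :=
  letI : SMul T (D.Fm M) := ⟨D.act hu⟩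
  Module.ofMinimalAxioms
    (fun t x y => Subtype.ext (hu (by
      change D.uS • (D.act hu t (x + y) : M) = D.uS • ((D.act hu t x : M) + D.act hu t y)
      simp only [smul_add, act_spec, Submodule.coe_add])))
    (fun t t' x => Subtype.ext (hu (by
      change D.uS • (D.act hu (t + t') x : M) = D.uS • ((D.act hu t x : M) + D.act hu t' x)
      simp only [smul_add, act_spec, ← add_smul]
      congr 1
      exact Subtype.ext (mul_add _ _ _))))
    (fun t t' x => Subtype.ext (hu (hu (by
      change D.uS • D.uS • (D.act hu (t * t') x : M) =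
        D.uS • D.uS • (D.act hu t (D.act hu t' x) : M)
      rw [act_spec, act_spec, smul_comm D.uS (D.ut t), act_spec, smul_smul, smul_smul]
      congr 1
      apply Subtype.ext
      simp only [MulMemClass.coe_mul, coe_ut, coe_uS]
      ring))))
    (fun x => Subtype.ext (hu (by
      change D.uS • (D.act hu 1 x : M) = D.uS • (x : M)
      rw [act_spec]
      congr 1
      exact Subtype.ext (mul_one _))))

lemma act_coe (hu : IsSMulRegular M D.uS) (a : D.S) (m : D.Fm M) :
    (D.act hu a m : M) = a • (m : M) := hu (by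
  change D.uS • (D.act hu a m : M) = D.uS • a • (m : M)
  rw [act_spec, smul_smul]
  rfl)

variable [IsNoetherianRing T] [IsNoetherianRing D.S] [Module.Finite D.S M]

lemma exists_j (hu : IsSMulRegular M D.uS) (hz : IsSMulRegular M D.zS)
    (hzu : ∀ x y : M, D.zS • x = D.uS • y → ∃ c, x = D.uS • c) :
    ∃ (r : ℕ) (j : (Fin r → T) →ₗ[D.S] M), Function.Injective j ∧
      ∀ m ∈ D.Fm M, ∃ y, j y = m := by
  let := D.modF hu
  have hc : ∀ (a : D.S) (m : D.Fm M), (((a : T) • m : D.Fm M) : M) = a • (m : M) := D.act_coe hu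
  have : IsScalarTower D.S T (D.Fm M) :=
    .of_algebraMap_smul fun a m => Subtype.ext (hc a m)
  have : Module.Finite T (D.Fm M) := .of_restrictScalars_finite D.S T _
  have hzF : IsSMulRegular (D.Fm M) D.z := fun x y h => Subtype.ext (hz (by
    have := congrArg Subtype.val h
    exact (hc D.zS x).symm.trans (this.trans (hc D.zS y))))
  have : Module.Free T (D.Fm M) := by
    refine D.freeT _ hzF fun x y h => ?_
    have h' : D.uS • (x : M) = D.zS • (y : M) :=
      (hc D.uS x).symm.trans ((congrArg Subtype.val h).trans (hc D.zS y))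
    obtain ⟨c, hc'⟩ := hzu _ _ h'.symm
    have hx : (x : M) = D.zS • c := hu (by
      change D.uS • (x : M) = D.uS • D.zS • c
      rw [h', hc', smul_comm])
    have hcF : c ∈ D.Fm M := fun t => by
      obtain ⟨m', hm'⟩ := x.2 t
      obtain ⟨d, hd⟩ := hzu (D.ut t • c) m' (by rw [hm', hx, smul_comm])
      exact ⟨d, hd.symm⟩
    exact ⟨⟨c, hcF⟩, Subtype.ext (hx.trans (hc D.zS ⟨c, hcF⟩).symm)⟩
  obtain ⟨r, ⟨e⟩⟩ : ∃ r, Nonempty ((Fin r → T) ≃ₗ[T] D.Fm M) :=
    ⟨_, ⟨((Module.Free.chooseBasis T _).reindex (Fintype.equivFin _)).equivFun.symm⟩⟩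
  refine ⟨r, (D.Fm M).subtype ∘ₗ (e.toLinearMap.restrictScalars D.S),
    Subtype.val_injective.comp e.injective, fun m hm => ⟨e.symm ⟨m, hm⟩, by simp⟩⟩

lemma three_gen {a b : D.S} (h : IsRegular M [a, b])
    (hi : ∀ e : M →ₗ[D.S] M, e ∘ₗ e = e → e = 0 ∨ e = LinearMap.id) :
    ∃ a b c : M, ∀ m : M, ∃ p q t : D.S, m = p • a + q • b + t • c := by
  have hu : IsSMulRegular M D.uS :=
    reg_of_mcm D.dimS h (fun h => D.u_ne (congrArg Subtype.val h)) D.uS_m
  have hz : IsSMulRegular M D.zS := reg_of_mcm D.dimS h D.primeS.ne_zero D.zS_m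
  obtain ⟨ha, hb⟩ := (wreg_pair a b).mp h.1
  have ham : a ∈ maximalIdeal D.S := by
    by_contra hh
    have : IsUnit a := by simpa using hh
    exact h.2 (by simp [Ideal.span_singleton_eq_top.mpr this])
  have hbm : b ∈ maximalIdeal D.S := by
    by_contra hh
    have : IsUnit b := by simpa using hh
    exact h.2 (by simp [Ideal.span_singleton_eq_top.mpr this])
  have soc : ∀ x : M, (∀ c ∈ maximalIdeal D.S, ∃ y, c • x = D.uS • y) → ∃ y, x = D.uS • y := by
    intro x hx
    obtain ⟨m1, h1⟩ := hx a ham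
    obtain ⟨m2, h2⟩ := hx b hbm
    obtain ⟨m3, rfl⟩ := hb m1 m2 (hu (by
      change D.uS • b • m1 = D.uS • a • m2
      rw [smul_comm D.uS, ← h1, smul_comm D.uS, ← h2, smul_comm]))
    exact ⟨m3, ha (by change a • x = a • D.uS • m3; rw [h1, smul_comm])⟩
  have hzu : ∀ x y : M, D.zS • x = D.uS • y → ∃ c, x = D.uS • c := by
    intro x y hxy
    refine soc x fun c hc => soc _ fun c' hc' => ?_
    obtain ⟨p, q, hpq⟩ := D.m_sq hc' hc
    exact ⟨p • y + q • x, by
      rw [smul_smul, hpq, add_smul, mul_comm D.zS, mul_smul, mul_smul, hxy, smul_add, smul_comm]⟩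
  obtain ⟨r, j, hj, hF⟩ := D.exists_j hu hz hzu
  choose g hg using fun m : M => hF (D.uS • m) fun t => ⟨D.ut t • m, smul_comm _ _ _⟩
  let G : M →ₗ[D.S] (Fin r → T) :=
    { toFun := g
      map_add' := fun x y => hj (by rw [map_add, hg, hg, hg, smul_add])
      map_smul' := fun c x => hj (by rw [map_smul, hg, hg, smul_comm]; rfl) }
  have hG : ∀ m, j (G m) = D.uS • m := hg
  have hGi : Function.Injective G := fun x y h => hu (by
    change D.uS • x = D.uS • y
    rw [← hG, ← hG, h])
  have hGj : ∀ y, G (j y) = D.u • y := fun y => hj (by rw [hG, ← map_smul]; rfl)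
  let e := LinearEquiv.ofInjective G hGi
  have key : ∀ m, (∀ t : T, t • G m ∈ LinearMap.range G) → ∃ y, G m = D.u • y := by
    intro m hm
    obtain ⟨y, rfl⟩ := hF m fun t => by
      obtain ⟨m', hm'⟩ := hm t
      refine ⟨m', hGi ?_⟩
      rw [map_smul, map_smul, hm', Subring.smul_def, Subring.smul_def, smul_smul]
      rfl
    exact ⟨y, hGj y⟩
  have key2 : ∀ (m : M) (t : T) (c : V), (∀ i, D.u ∣ (t - D.ι c) * G m i) →
      t • G m ∈ LinearMap.range G := by
    intro m t c hh
    choose y hy using hh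
    refine ⟨D.iS c • m + j y, ?_⟩
    rw [map_add, map_smul, hGj]
    funext i
    simp only [Pi.add_apply, Pi.smul_apply, Subring.smul_def, coe_iS, smul_eq_mul]
    linear_combination -hy i
  obtain ⟨x1, x2, x3, hx⟩ := D.lattice (LinearMap.range G) (fun y => ⟨_, hGj y⟩)
    (by
      rintro _ ⟨m, rfl⟩ h0
      obtain ⟨y, hy⟩ := key m fun t => key2 m t (D.e1 t) fun i => D.ker _
        (by have : D.e0 (G m i) = 0 := congrFun h0 i
            simp [this]) (by simp [D.e1i])
      funext i
      simp [hy, D.e1u])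
    (by
      rintro _ ⟨m, rfl⟩ h0
      obtain ⟨y, hy⟩ := key m fun t => key2 m t (D.e0 t) fun i => D.ker _ (by simp [D.e0i])
        (by have : D.e1 (G m i) = 0 := congrFun h0 i
            simp [this])
      funext i
      simp [hy, D.e0u])
    (by
      rintro y ⟨m, hm⟩
      obtain ⟨c, hc⟩ := hzu (j y) m (by rw [← hG, hm, ← map_smul]; rfl)
      exact ⟨c, hj (by rw [hG, hc])⟩)
    (by
      intro f hf
      rcases hi (e.symm.toLinearMap ∘ₗ f ∘ₗ e.toLinearMap) (LinearMap.ext fun x => by
        simpa using LinearMap.congr_fun hf (e x)) with h | h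
      · left
        refine LinearMap.ext fun y => ?_
        simpa using LinearMap.congr_fun h (e.symm y)
      · right
        refine LinearMap.ext fun y => ?_
        simpa using LinearMap.congr_fun h (e.symm y))
  refine ⟨e.symm x1, e.symm x2, e.symm x3, fun m => ?_⟩
  obtain ⟨p, q, t, h⟩ := hx (e m)
  exact ⟨p, q, t, e.injective (by simpa using h)⟩

end Data

lemma len_three {R M : Type} [CommRing R] [AddCommGroup M] [Module R M] (x y : R) {a b c : M}
    (h : ∀ m : M, ∃ p q t : R, m = p • a + q • b + t • c) :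
    Module.length R (M ⧸ K (K (⊥ : Submodule R M) x) y) ≤
      3 * Module.length R (R ⧸ K (K (⊥ : Submodule R R) x) y) := by
  let f : M → (R ⧸ K (K (⊥ : Submodule R R) x) y) →ₗ[R] (M ⧸ K (K (⊥ : Submodule R M) x) y) :=
    fun a => Submodule.mapQ _ _ (LinearMap.toSpanSingleton R M a) (by
      intro p hp
      obtain ⟨s, t, rfl⟩ := mem_KK.mp hp
      exact mem_KK.mpr ⟨s • a, t • a, by simp [add_smul, mul_smul]⟩)
  refine (Module.length_le_of_surjective (((f a).coprod (f b)).coprod (f c)) ?_).trans ?_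
  · intro m
    obtain ⟨m, rfl⟩ := Submodule.Quotient.mk_surjective _ m
    obtain ⟨p, q, t, rfl⟩ := h m
    exact ⟨((Submodule.Quotient.mk p, Submodule.Quotient.mk q), Submodule.Quotient.mk t), rfl⟩
  · rw [Module.length_prod, Module.length_prod]
    exact le_of_eq (by ring)

end Pool.Agent.H.MP_8741c9_al
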