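import Pool.Agent.H.MP_8741c9_al.B

set_option linter.unusedSectionVars false

namespace Pool.Agent.H.MP_8741c9_al

open IsLocalRing Polynomial

lemma alg_one {R S : Type} [CommRing R] [IsDomain R] [CommRing S] [Algebra R S]
    (ψ : R[X][X] →ₐ[R] S) {g h : R[X][X]} (hg : Prime g) (hh : ¬ g ∣ h) (g0 : ψ g = 0)
    (h0 : ψ h = 0) : IsAlgebraic R (ψ (C X)) := by
  obtain ⟨c, hc, hm⟩ := const_mem hg hh
  obtain ⟨a, b, hab⟩ := Ideal.mem_span_pair.mp hm
  refine ⟨c, hc, ?_⟩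
  have : aeval (ψ (C X)) = ψ.comp CAlgHom := algHom_ext (by simp)
  rw [this]
  change ψ (C c) = 0
  rw [← hab, map_add, map_mul, map_mul, g0, h0]
  simp

lemma alg_two {R S : Type} [CommRing R] [IsDomain R] [CommRing S] [Algebra R S]
    (ψ : R[X][X] →ₐ[R] S) {g h : R[X][X]} (hg : Prime g) (hh : ¬ g ∣ h) (g0 : ψ g = 0)
    (h0 : ψ h = 0) : IsAlgebraic R (ψ X) := by
  have := alg_one (ψ.comp (Bivariate.swap (R := R)).toAlgHom) (g := Bivariate.swap g)
    (h := Bivariate.swap h) ((MulEquiv.prime_iff Bivariate.swap).mpr hg)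
    (by rwa [map_dvd_iff]) (by simpa [Bivariate.swap_swap_apply] using g0)
    (by simpa [Bivariate.swap_swap_apply] using h0)
  simpa [Bivariate.swap_X] using this

/-- Data for the intersection ring. -/
structure Nag (A S : Type) [CommRing A] [CommRing S] [IsLocalRing S] where
  φ : A →+* S
  z0 : A
  pz : Prime (φ z0)
  zm : φ z0 ∈ maximalIdeal S
  apx : ∀ x, ∃ d t, IsUnit (φ t) ∧ φ z0 ∣ φ t * x - φ d
  hQ : ∀ Q : Ideal S, Q.IsPrime → φ z0 ∉ Q → ∀ g h : A, Prime g → φ g ∈ Q → φ h ∈ Q → g ∣ h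

namespace Nag

variable {A S : Type} [CommRing A] [CommRing S] [IsDomain S] [IsLocalRing S] (N : Nag A S)

abbrev z : S := N.φ N.z0

def B : Subring S where
  carrier := {b | ∃ (d t : A) (i : ℕ), Associated (N.φ t) (N.z ^ i) ∧ N.φ t * b = N.φ d}
  mul_mem' := by
    rintro a b ⟨d, t, i, h, e⟩ ⟨d', t', i', h', e'⟩
    exact ⟨d * d', t * t', i + i', by rw [map_mul, pow_add]; exact h.mul_mul h',
      by rw [map_mul, map_mul, ← e, ← e']; ring⟩
  one_mem' := ⟨1, 1, 0, by simp, by simp⟩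
  add_mem' := by
    rintro a b ⟨d, t, i, h, e⟩ ⟨d', t', i', h', e'⟩
    exact ⟨d * t' + d' * t, t * t', i + i', by rw [map_mul, pow_add]; exact h.mul_mul h',
      by rw [map_add, map_mul, map_mul, map_mul, ← e, ← e']; ring⟩
  zero_mem' := ⟨0, 1, 0, by simp, by simp⟩
  neg_mem' := by
    rintro a ⟨d, t, i, h, e⟩
    exact ⟨-d, t, i, h, by rw [map_neg, ← e]; ring⟩

def fB : A →+* N.B := N.φ.codRestrict _ fun d => ⟨d, 1, 0, by simp, by simp⟩

@[simp] lemma coe_fB (d : A) : (N.fB d : S) = N.φ d := rfl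

abbrev zB : N.B := N.fB N.z0

lemma sat (n : ℕ) (y : S) (h : N.z ^ n * y ∈ N.B) : y ∈ N.B := by
  obtain ⟨d, t, i, h, e⟩ := h
  exact ⟨d, t * N.z0 ^ n, i + n, by rw [map_mul, map_pow, pow_add]; exact h.mul_right _,
    by rw [map_mul, map_pow, ← e, mul_assoc]⟩

lemma unitB (b : N.B) (h : IsUnit (b : S)) : IsUnit b := by
  obtain ⟨c, hc⟩ := h.exists_right_inv
  obtain ⟨d, t, i, h1, e⟩ := b.2
  refine IsUnit.of_mul_eq_one ⟨c, t, d, i, ?_, ?_⟩ (Subtype.ext hc)
  · rw [← e]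
    exact (associated_mul_unit_left _ _ h).trans h1
  · rw [← e, mul_assoc, hc, mul_one]

instance : IsLocalRing N.B := by
  refine .of_isUnit_or_isUnit_one_sub_self fun a => ?_
  rcases isUnit_or_isUnit_one_sub_self (a : S) with h | h
  · exact .inl (N.unitB a h)
  · exact .inr (N.unitB _ h)

lemma mem_m {b : N.B} : b ∈ maximalIdeal N.B ↔ (b : S) ∈ maximalIdeal S := by
  simp only [mem_maximalIdeal, mem_nonunits_iff, not_iff_not]
  exact ⟨fun h => h.map N.B.subtype, N.unitB b⟩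

lemma dens (n : ℕ) (x : S) : ∃ b : N.B, ∃ y : S, x = b + N.z ^ n * y := by
  induction n with
  | zero => exact ⟨0, x, by simp⟩
  | succ n ih =>
    obtain ⟨b, y, rfl⟩ := ih
    obtain ⟨d, t, ht, c, hc⟩ := N.apx y
    obtain ⟨e, he⟩ := (N.unitB (N.fB t) ht).exists_left_inv
    have he' : (e : S) * N.φ t = 1 := congrArg Subtype.val he
    refine ⟨b + N.zB ^ n * e * N.fB d, e * c, ?_⟩
    push_cast
    simp only [coe_fB]
    linear_combination N.z ^ n * e * hc - N.z ^ n * y * he'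

lemma zB_dvd {b : N.B} : N.zB ∣ b ↔ N.z ∣ b := by
  constructor
  · rintro ⟨y, rfl⟩
    exact ⟨y, rfl⟩
  · rintro ⟨y, hy⟩
    exact ⟨⟨y, N.sat 1 y (by rw [pow_one, ← hy]; exact b.2)⟩, Subtype.ext hy⟩

lemma primeB : Prime N.zB := by
  refine ⟨fun h => N.pz.ne_zero (congrArg Subtype.val h),
    fun h => N.pz.not_unit (h.map N.B.subtype), fun a b h => ?_⟩
  simp only [zB_dvd] at h ⊢
  exact N.pz.dvd_or_dvd h

lemma apx_ideal (p : Ideal N.B) (n : ℕ) {x : S} (hx : x ∈ p.map N.B.subtype) :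
    ∃ b ∈ p, ∃ y : S, x = b + N.z ^ n * y := by
  induction hx using Submodule.span_induction with
  | mem x hx =>
    obtain ⟨b, hb, rfl⟩ := hx
    exact ⟨b, hb, 0, by simp⟩
  | zero => exact ⟨0, p.zero_mem, 0, by simp⟩
  | add x x' _ _ h h' =>
    obtain ⟨b, hb, y, rfl⟩ := h
    obtain ⟨b', hb', y', rfl⟩ := h'
    exact ⟨b + b', p.add_mem hb hb', y + y', by push_cast; ring⟩
  | smul s x _ h =>
    obtain ⟨b, hb, y, rfl⟩ := h
    obtain ⟨c, s', rfl⟩ := N.dens n s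
    exact ⟨c * b, p.mul_mem_left _ hb, s' * b + (c + N.z ^ n * s') * y, by
      push_cast; simp only [smul_eq_mul]; ring⟩

lemma apx_ideal' (p : Ideal N.B) (n : ℕ) {x : N.B} (hx : (x : S) ∈ p.map N.B.subtype) :
    ∃ b ∈ p, ∃ y : N.B, x = b + N.zB ^ n * y := by
  obtain ⟨b, hb, y, h⟩ := N.apx_ideal p n hx
  exact ⟨b, hb, ⟨y, N.sat n y (by rw [← sub_eq_iff_eq_add'.mpr h]; exact (x - b).2)⟩,
    Subtype.ext h⟩

variable [IsNoetherianRing S]

lemma fg_of_mem (p : Ideal N.B) (hz : N.zB ∈ p) : p.FG := by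
  classical
  obtain ⟨G, hG, hG'⟩ := (Submodule.fg_span_iff_fg_span_finset_subset (R := S)
    (N.B.subtype '' p)).mp (IsNoetherian.noetherian _)
  obtain ⟨G', hG1, rfl⟩ := Finset.subset_set_image_iff.mp hG
  refine ⟨insert N.zB G', le_antisymm ?_ fun b hb => ?_⟩
  · rw [Ideal.span_le, Finset.coe_insert, Set.insert_subset_iff]
    exact ⟨hz, hG1⟩
  · have : (b : S) ∈ (Ideal.span (G' : Set N.B)).map N.B.subtype := by
      rw [Ideal.map_span, ← Finset.coe_image]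
      exact hG'.le (Submodule.subset_span ⟨b, hb, rfl⟩)
    obtain ⟨c, hc, y, rfl⟩ := N.apx_ideal' _ 1 this
    rw [Finset.coe_insert, pow_one]
    exact Ideal.add_mem _ (Ideal.span_mono (Set.subset_insert _ _) hc)
      (Ideal.mul_mem_right _ _ (Ideal.subset_span (Set.mem_insert _ _)))

variable [IsDomain A] [UniqueFactorizationMonoid A]

lemma principal_of_not_mem (p : Ideal N.B) (hp : p.IsPrime) (hz : N.zB ∉ p) : p.IsPrincipal := by
  obtain ⟨Q, ⟨hQ1, hQ⟩, hQz⟩ : ∃ Q ∈ {J : Ideal S | p.map N.B.subtype ≤ J ∧ J.IsPrime},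
      N.z ∉ Q := by
    by_contra! h
    have : N.z ∈ (p.map N.B.subtype).radical := by
      rw [Ideal.radical_eq_sInf, Ideal.mem_sInf]
      exact fun J hJ => h J hJ
    obtain ⟨n, hn⟩ := this
    obtain ⟨b, hb, y, e⟩ := N.apx_ideal' p (n + 1) (x := N.zB ^ n) hn
    have hu : IsUnit (1 - N.zB * y) := isUnit_one_sub_self_of_mem_nonunits _
      (mul_mem_nonunits_left N.primeB.not_unit)
    have : N.zB ^ n * (1 - N.zB * y) ∈ p := by
      convert hb using 1
      linear_combination e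
    exact hz (hp.mem_of_pow_mem n ((Ideal.mul_unit_mem_iff_mem p hu).mp this))
  by_cases h0 : p = ⊥
  · exact h0 ▸ bot_isPrincipal
  obtain ⟨b0, hb0, hb0'⟩ := Submodule.exists_mem_ne_zero_of_ne_bot h0
  have hne : ∀ {t : A} {i : ℕ}, Associated (N.φ t) (N.z ^ i) → N.φ t ≠ 0 := fun h =>
    h.ne_zero_iff.mpr (pow_ne_zero _ N.pz.ne_zero)
  have key : ∀ d : A, N.φ d ≠ 0 → N.fB d ∈ p → ∃ g, Prime g ∧ N.φ g ≠ 0 ∧ N.fB g ∈ p := by
    intro d
    induction d using UniqueFactorizationMonoid.induction_on_prime with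
    | h₁ => simp
    | h₂ x hx => exact fun _ h => absurd (p.eq_top_of_isUnit_mem h (hx.map _)) hp.ne_top
    | h₃ a g _ hg ih =>
      intro h1 h2
      rw [map_mul] at h1 h2
      rcases hp.mem_or_mem h2 with h | h
      · exact ⟨g, hg, left_ne_zero_of_mul h1, h⟩
      · exact ih (right_ne_zero_of_mul h1) h
  have hd : ∀ (b : N.B) (d t : A), b ∈ p → N.φ t * b = N.φ d → N.fB d ∈ p := fun b d t hb e => by
    have : N.fB d = N.fB t * b := Subtype.ext e.symm
    exact this ▸ p.mul_mem_left _ hb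
  obtain ⟨d, t, i, ht, e⟩ := b0.2
  obtain ⟨g, hg, hg0, hgp⟩ := key d
    (e ▸ mul_ne_zero (hne ht) fun h => hb0' (Subtype.ext h)) (hd _ _ _ hb0 e)
  obtain ⟨j, g', hg', eg⟩ := WfDvdMonoid.max_power_factor hg0 N.pz.irreducible
  let gB : N.B := ⟨g', N.sat j g' (eg ▸ (N.fB g).2)⟩
  have hgB : gB ∈ p := by
    have : N.fB g = N.zB ^ j * gB := Subtype.ext eg
    exact (hp.mem_or_mem (this ▸ hgp)).resolve_left fun h => hz (hp.mem_of_pow_mem j h)
  refine ⟨gB, le_antisymm (fun b hb => ?_) (by simpa using hgB)⟩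
  obtain ⟨d, t, i, ⟨w, ht⟩, e⟩ := b.2
  obtain ⟨c, rfl⟩ := N.hQ Q hQ hQz g d hg (hQ1 (Ideal.mem_map_of_mem _ hgp))
    (hQ1 (Ideal.mem_map_of_mem _ (hd _ _ _ hb e)))
  rw [map_mul, eg] at e
  obtain ⟨c', hc'⟩ := N.pz.pow_dvd_of_dvd_mul_left i hg' (b := w * N.z ^ j * N.φ c)
    ⟨b, by linear_combination b * ht - w * e⟩
  refine Ideal.mem_span_singleton'.mpr ⟨⟨c', N.z0 ^ j * c, t, i, ⟨w, ht⟩, ?_⟩, Subtype.ext ?_⟩
  · refine w.isUnit.mul_left_cancel ?_
    rw [map_mul, map_pow]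
    linear_combination c' * ht - hc'
  · refine mul_left_cancel₀ (pow_ne_zero i N.pz.ne_zero) ?_
    change N.z ^ i * (c' * g') = N.z ^ i * b
    linear_combination b * ht - w * e - g' * hc'

instance : IsNoetherianRing N.B := by
  refine .of_prime fun p hp => ?_
  by_cases hz : N.zB ∈ p
  · exact N.fg_of_mem p hz
  · exact (N.principal_of_not_mem p hp hz).fg

lemma flat : Module.Flat N.B S := flat_of_dense N.B N.zB N.zm N.dens N.sat

lemma pidAway : IsPrincipalIdealRing (Localization.Away N.zB) := by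
  refine .of_prime fun P hP => ?_
  have hz : N.zB ∉ P.under N.B := fun h =>
    hP.ne_top (P.eq_top_of_isUnit_mem h (IsLocalization.Away.algebraMap_isUnit N.zB))
  obtain ⟨g, hg⟩ := N.principal_of_not_mem _ inferInstance hz
  rw [← IsLocalization.map_under (Submonoid.powers N.zB) _ P, hg]
  exact ⟨algebraMap _ _ g, by simp [Ideal.map_span]⟩

end Nag

end Pool.Agent.H.MP_8741c9_al
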