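import Pool.Agent.H.MP_8741c9_al.C
import Pool.Agent.H.MP_8741c9_al.F

set_option linter.unusedSectionVars false

namespace Pool.Agent.H.MP_8741c9_al

open IsLocalRing Polynomial

lemma Data.exists_nag {T V : Type} [CommRing T] [IsDomain T] [CommRing V] [IsDomain V]
    [IsDiscreteValuationRing V] (D : Data T V) {R : Type} [CommRing R] [IsDomain R]
    (ρ : R →+* V) (z0 : R) (σ : V) (hz0 : ρ z0 = D.w) (hσ : D.w ∣ σ)
    (tr : ∀ p : R[X], p.eval₂ ρ σ = 0 → p = 0) (res : ∀ c, ∃ r, D.w ∣ c - ρ r)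
    (apx : ∀ x : T, ∃ a b t : R[X], IsUnit (t.eval₂ (D.ι.comp ρ) D.u) ∧
      D.z ∣ t.eval₂ (D.ι.comp ρ) D.u * x - a.eval₂ (D.ι.comp ρ) D.u -
        b.eval₂ (D.ι.comp ρ) D.u * D.s) :
    ∃ N : Nag R[X][X] D.S, N.z = D.zS ∧ (∃ uB : N.B, (uB : D.S) = D.uS) ∧
      ∃ vB : N.B, D.zS ∣ vB - D.vS := by
  let ιS : V →+* D.S := D.ι.codRestrict D.S fun a => (D.iS a).2
  let : Algebra R D.S := (ιS.comp ρ).toAlgebra
  let φ : R[X][X] →ₐ[R] D.S := aevalAeval D.uS (D.vS + D.iS σ)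
  have hC : ∀ p : R[X], (φ (C p) : T) = p.eval₂ (D.ι.comp ρ) D.u := fun p => by
    rw [aevalAeval_C, aeval_def]
    exact hom_eval₂ p _ D.S.subtype _
  have hX : φ X = D.vS + D.iS σ := aevalAeval_Y _ _
  have hz : φ (C (C z0)) = D.zS := Subtype.ext (by rw [hC]; simp [hz0])
  have hzσ : D.z ∣ D.ι σ := map_dvd _ hσ
  refine ⟨⟨φ.toRingHom, C (C z0), hz ▸ D.primeS, hz ▸ D.zS_m, fun x => ?_, ?_⟩, hz,
    ⟨Nag.fB _ (C X), aevalAeval_X _ _⟩, Nag.fB _ X, ?_⟩
  · obtain ⟨t', ht'⟩ := D.decomp x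
    obtain ⟨a, b, t, ht, h⟩ := apx t'
    obtain ⟨r, hr⟩ := res (D.e0 x)
    refine ⟨C (t * C r + X * a) + C b * X, C t, D.unitS _ (((hC t).symm ▸ ht).map D.e0), ?_⟩
    change φ _ ∣ φ _ * x - φ _
    rw [hz, D.zS_dvd, map_add, map_mul, hX]
    push_cast
    simp only [hC, eval₂_add, eval₂_mul, eval₂_C, eval₂_X, D.coe_vS, D.coe_iS, RingHom.comp_apply]
    have hx : D.e0 x = D.e1 x := x.2
    rw [← hx] at ht'
    convert ((map_dvd D.ι hr).mul_left (t.eval₂ (D.ι.comp ρ) D.u)).add ((h.mul_left D.u).sub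
      (hzσ.mul_left (b.eval₂ (D.ι.comp ρ) D.u))) using 1
    rw [map_sub]
    linear_combination t.eval₂ (D.ι.comp ρ) D.u * ht'
  · intro Q hQ hzQ g h hg g0 h0
    by_contra hh
    replace hzQ : D.zS ∉ Q := hz ▸ hzQ
    let π := Ideal.Quotient.mkₐ R Q
    have a1 : IsAlgebraic R (π D.uS) := by
      simpa [φ] using alg_one (π.comp φ) hg hh (Ideal.Quotient.eq_zero_iff_mem.mpr g0)
        (Ideal.Quotient.eq_zero_iff_mem.mpr h0)
    have a2 : IsAlgebraic R (π D.vS + π (D.iS σ)) := by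
      simpa [hX] using alg_two (π.comp φ) hg hh (Ideal.Quotient.eq_zero_iff_mem.mpr g0)
        (Ideal.Quotient.eq_zero_iff_mem.mpr h0)
    let E := Subalgebra.algebraicClosure R (D.S ⧸ Q)
    let y : E := ⟨_, a1⟩
    have a3 : IsIntegral E (π D.vS) := by
      refine ⟨X ^ 2 - (C y * X + C (y ^ 3)), monic_X_pow_sub (by compute_degree!), ?_⟩
      have := congrArg π D.vS_sq
      simp only [map_mul, map_add] at this
      simp only [eval₂_sub, eval₂_add, eval₂_mul, eval₂_pow, eval₂_X, eval₂_C, map_pow]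
      change _ - (π D.uS * _ + π D.uS ^ 3) = 0
      linear_combination this
    obtain ⟨p, hp, hp'⟩ := a2.sub (a3.trans_isAlgebraic R)
    rw [add_sub_cancel_left, aeval_algHom_apply] at hp'
    have h1 : aeval (D.iS σ) p = ιS (p.eval₂ ρ σ) := (hom_eval₂ p ρ ιS σ).symm
    refine hp (tr p ?_)
    by_contra hne
    obtain ⟨n, c, hc⟩ := IsDiscreteValuationRing.associated_pow_irreducible hne D.hw
    refine hzQ (hQ.mem_of_pow_mem n ?_)
    have : D.zS ^ n = ιS (p.eval₂ ρ σ) * ιS c := by rw [← map_mul, hc, map_pow]; rfl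
    rw [this, ← h1]
    exact Q.mul_mem_right _ (Ideal.Quotient.eq_zero_iff_mem.mp hp')
  · change _ ∣ φ X - _
    rw [hX, add_sub_cancel_left, D.zS_dvd]
    exact hzσ

noncomputable abbrev pX : Ideal ℚ[X] := Ideal.span {X}

instance : pX.IsPrime := (Ideal.span_singleton_prime X_ne_zero).mpr prime_X

abbrev O : Type := Localization.AtPrime pX

lemma mem_pc {p : ℚ[X]} : p ∈ pX.primeCompl ↔ p.eval 0 ≠ 0 := by
  simp [Ideal.mem_span_singleton, X_dvd_iff, coeff_zero_eq_eval_zero]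

noncomputable def ev : O →+* ℚ :=
  IsLocalization.lift (M := pX.primeCompl) (g := evalRingHom 0) fun y => (mem_pc.mp y.2).isUnit

lemma ev_alg (p : ℚ[X]) : ev (algebraMap _ _ p) = p.eval 0 := IsLocalization.lift_eq _ _

noncomputable def u0 : O := algebraMap ℚ[X] O X

lemma O_frac (a : O) : ∃ p q : ℚ[X], q.eval 0 ≠ 0 ∧ IsUnit (algebraMap _ O q) ∧
    a * algebraMap _ O q = algebraMap _ O p := by
  obtain ⟨⟨p, q⟩, h⟩ := IsLocalization.surj pX.primeCompl a
  exact ⟨p, q, mem_pc.mp q.2, IsLocalization.map_units O q, h⟩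

lemma O_inj : Function.Injective (algebraMap ℚ[X] O) :=
  IsLocalization.injective O pX.primeCompl_le_nonZeroDivisors

lemma O_ker (a : O) (h : ev a = 0) : u0 ∣ a := by
  obtain ⟨p, q, hq, hu, e⟩ := O_frac a
  have := congrArg ev e
  rw [map_mul, h, zero_mul, ev_alg] at this
  rw [← hu.dvd_mul_right, e]
  exact map_dvd _ (by rw [X_dvd_iff, coeff_zero_eq_eval_zero, ← this])

lemma O_unit (a : O) (h : IsUnit (ev a)) : IsUnit a := by
  obtain ⟨p, q, hq, hu, e⟩ := O_frac a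
  have := congrArg ev e
  rw [map_mul, ev_alg, ev_alg] at this
  exact isUnit_of_mul_isUnit_left (e ▸ IsLocalization.map_units O
    ⟨p, mem_pc.mpr (this ▸ mul_ne_zero h.ne_zero hq)⟩)

lemma O_dvd (a : O) (h : a ≠ 0) : ∃ n : ℕ, a ∣ u0 ^ n := by
  obtain ⟨p, q, hq, hu, e⟩ := O_frac a
  have hp : p ≠ 0 := by
    rintro rfl
    exact mul_ne_zero h hu.ne_zero (e.trans (map_zero _))
  obtain ⟨n, p', hp', rfl⟩ := WfDvdMonoid.max_power_factor hp irreducible_X
  have hu' : IsUnit (algebraMap _ O p') := IsLocalization.map_units O (M := pX.primeCompl)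
    ⟨p', fun h => hp' (Ideal.mem_span_singleton.mp h)⟩
  refine ⟨n, hu'.dvd_mul_right.mp ⟨algebraMap _ O q, ?_⟩⟩
  rw [e, map_mul, map_pow, u0]

lemma poly_aniso (a b : ℚ[X]) (h : a * (a + b) = X * (b * b)) : b = 0 := by
  by_contra hb
  have h0 : a * (a + b) ≠ 0 := h ▸ mul_ne_zero X_ne_zero (mul_ne_zero hb hb)
  have hd := congrArg natDegree h
  rw [natDegree_mul (left_ne_zero_of_mul h0) (right_ne_zero_of_mul h0),
    natDegree_mul X_ne_zero (mul_ne_zero hb hb), natDegree_mul hb hb, natDegree_X] at hd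
  by_cases hlt : b.natDegree < a.natDegree
  · rw [natDegree_add_eq_left_of_natDegree_lt hlt] at hd
    omega
  · have := natDegree_add_le a b
    omega

lemma O_aniso (a b : O) (h : a * (a + b) = u0 * (b * b)) : a = 0 ∧ b = 0 := by
  obtain ⟨p, q, -, hu, e⟩ := O_frac a
  obtain ⟨p', q', -, hu', e'⟩ := O_frac b
  have := poly_aniso (p * q') (p' * q) (O_inj (by
    simp only [map_mul, map_add, ← e, ← e']
    change _ = u0 * _
    linear_combination (algebraMap ℚ[X] O q * algebraMap ℚ[X] O q') ^ 2 * h))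
  have hb : b = 0 := by
    have h2 := congrArg (algebraMap ℚ[X] O) this
    rw [map_mul, ← e', map_zero] at h2
    simpa [hu.ne_zero, hu'.ne_zero] using h2
  exact ⟨by simpa [hb] using h, hb⟩

lemma exists_tr : ∃ σ : PowerSeries ℚ, PowerSeries.X ∣ σ ∧
    ∀ p : ℚ[X][X], p.eval₂ coeToPowerSeries.ringHom σ = 0 → p = 0 := by
  by_contra! h
  let : Algebra ℚ[X] (PowerSeries ℚ) := coeToPowerSeries.ringHom.toAlgebra
  have : FaithfulSMul ℚ[X] (PowerSeries ℚ) :=
    (faithfulSMul_iff_algebraMap_injective _ _).mpr (coe_injective ℚ)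
  have : Countable ℚ[X] := Cardinal.mk_le_aleph0_iff.mp (cardinalMk_le_max.trans (by simp))
  have hc := (Algebraic.countable ℚ[X] (PowerSeries ℚ)).to_subtype
  let g : (ℕ → ℚ) → {x : PowerSeries ℚ | IsAlgebraic ℚ[X] x} := fun f =>
    ⟨PowerSeries.X * PowerSeries.mk f, by
      obtain ⟨p, hp, hp'⟩ := h _ (dvd_mul_right PowerSeries.X (PowerSeries.mk f))
      exact ⟨p, hp', hp⟩⟩
  have hg : Function.Injective g := fun f f' e => by
    have := mul_left_cancel₀ PowerSeries.X_ne_zero (congrArg Subtype.val e)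
    funext n
    simpa using congrArg (PowerSeries.coeff n) this
  have := hg.countable
  obtain ⟨k, hk⟩ := exists_surjective_nat (ℕ → ℚ)
  obtain ⟨n, hn⟩ := hk fun n => k n n + 1
  simpa using congrFun hn n

end Pool.Agent.H.MP_8741c9_al
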